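import Pool.Agent.H.MP_17585b_co.D
import Pool.Agent.H.MP_e89f49_co.A

set_option autoImplicit false

namespace Pool.Agent.H.MP_17585b_co

open Finset Pool.Agent.H.MP_76f918_co

variable {ρ : Finset ℕ → ℕ}

lemma con_add (h : RK ρ) (e : ℕ) (X : Finset ℕ) : con ρ e X + ρ {e} = ρ (insert e X) := by
  unfold con
  have := h.mono {e} (insert e X) (by simp)
  omega

lemma con_RK (h : RK ρ) (e : ℕ) : RK (con ρ e) := by
  refine ⟨by simp [con], fun X Y hXY => ?_, fun X Y => ?_, fun p => ?_⟩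
  · have := con_add h e X
    have := con_add h e Y
    have := h.mono _ _ (insert_subset_insert e hXY)
    omega
  · have := con_add h e X
    have := con_add h e Y
    have a := con_add h e (X ∪ Y)
    have b := con_add h e (X ∩ Y)
    have := h.sub (insert e X) (insert e Y)
    rw [← insert_union_distrib, ← insert_inter_distrib] at this
    omega
  · have := con_add h e {p}
    have a := h.ins {e} p
    rw [pair_comm] at a
    omega

lemma Cl_con (h : RK ρ) (e : ℕ) (X : Finset ℕ) (p : ℕ) :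
    Cl (con ρ e) X p ↔ Cl ρ (insert e X) p := by
  unfold Cl
  have := con_add h e X
  have := con_add h e (insert p X)
  rw [insert_comm]
  omega

/-- parallel non-loops modulo a subset of `G` -/
def Par (ρ : Finset ℕ → ℕ) (G : Finset ℕ) (x y : ℕ) : Prop :=
  x ∈ G ∧ y ∈ G ∧ ∃ Z ⊆ G, ¬ Cl ρ Z x ∧ ¬ Cl ρ Z y ∧ Cl ρ (insert y Z) x

lemma Par.symm (h : RK ρ) {G : Finset ℕ} {x y : ℕ} (p : Par ρ G x y) : Par ρ G y x := by
  obtain ⟨a, b, Z, c, d, e, f⟩ := p
  exact ⟨b, a, Z, c, e, d, h.exch f d⟩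

def Sep (ρ : Finset ℕ → ℕ) (G A : Finset ℕ) : Prop := A ⊆ G ∧ ρ A + ρ (G \ A) ≤ ρ G

lemma skew0 (h : RK ρ) {P P' Q Q' : Finset ℕ} (a : P ⊆ P') (b : Q ⊆ Q') :
    ρ P + ρ Q + ρ (P' ∪ Q') ≤ ρ (P ∪ Q) + ρ P' + ρ Q' := by
  have h1 := h.sub (P ∪ Q) P'
  have h2 := h.sub (P' ∪ Q) Q'
  have h3 := h.mono P ((P ∪ Q) ∩ P') (subset_inter subset_union_left a)
  have h4 := h.mono Q ((P' ∪ Q) ∩ Q') (subset_inter subset_union_right b)
  have h5 := h.mono (P' ∪ Q) (P ∪ Q ∪ P') (by intro x; simp only [mem_union]; tauto)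
  have h6 := h.mono (P' ∪ Q') (P' ∪ Q ∪ Q') (by intro x; simp only [mem_union]; tauto)
  omega

lemma Sep.add (h : RK ρ) {G A X : Finset ℕ} (s : Sep ρ G A) (hX : X ⊆ G) :
    ρ X = ρ (X ∩ A) + ρ (X \ A) := by
  have h1 := skew0 h (P := X ∩ A) (P' := A) (Q := X \ A) (Q' := G \ A) inter_subset_right
    (sdiff_subset_sdiff hX Subset.rfl)
  have h2 := h.sub (X ∩ A) (X \ A)
  have e : X ∩ A ∪ X \ A = X := by rw [union_comm]; exact sdiff_union_inter X A
  rw [e] at h1 h2
  rw [union_sdiff_of_subset s.1] at h1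
  have := s.2
  omega

lemma Sep.compl {G A : Finset ℕ} (s : Sep ρ G A) : Sep ρ G (G \ A) := by
  refine ⟨sdiff_subset, ?_⟩
  rw [Finset.sdiff_sdiff_eq_self s.1]
  have := s.2
  omega

lemma Sep.inter (h : RK ρ) {G A B : Finset ℕ} (s : Sep ρ G A) (t : Sep ρ G B) :
    Sep ρ G (A ∩ B) := by
  refine ⟨inter_subset_left.trans s.1, ?_⟩
  have h1 := t.add h s.1
  have h2 := h.sub (A \ B) (G \ A)
  have h3 := h.mono (G \ (A ∩ B)) (A \ B ∪ G \ A) (by
    intro x; simp only [mem_union, mem_sdiff, mem_inter]; tauto)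
  have := s.2
  omega

lemma Sep.trans (h : RK ρ) {G A B : Finset ℕ} (s : Sep ρ G A) (t : Sep ρ A B) : Sep ρ G B := by
  refine ⟨t.1.trans s.1, ?_⟩
  have h2 := h.sub (A \ B) (G \ A)
  have h3 := h.mono (G \ B) (A \ B ∪ G \ A) (by
    intro x; simp only [mem_union, mem_sdiff]; tauto)
  have := s.2
  have := t.2
  omega

lemma Sep.cl (h : RK ρ) {G A Z : Finset ℕ} (s : Sep ρ G A) (hZ : Z ⊆ G) {x : ℕ} (hx : x ∈ A) :
    Cl ρ Z x ↔ Cl ρ (Z ∩ A) x := by
  unfold Cl
  have h1 := s.add h hZ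
  have h2 := s.add h (insert_subset (s.1 hx) hZ)
  rw [insert_inter_of_mem hx, insert_sdiff_of_mem _ hx] at h2
  omega

lemma Sep.par (h : RK ρ) {G A : Finset ℕ} (s : Sep ρ G A) {x y : ℕ} (hx : x ∈ A)
    (p : Par ρ G x y) : Par ρ A x y := by
  obtain ⟨a, b, Z, c, d, e, f⟩ := p
  rw [s.cl h (insert_subset b c) hx] at f
  rw [s.cl h c hx] at d
  have hy : y ∈ A := by
    by_contra hy
    rw [insert_inter_of_notMem hy] at f
    exact d f
  rw [s.cl h c hy] at e
  rw [insert_inter_of_mem hy] at f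
  exact ⟨hx, hy, Z ∩ A, inter_subset_right, d, e, f⟩

lemma Sep.del (h : RK ρ) {G A : Finset ℕ} (s : Sep ρ G A) {e : ℕ} (he : e ∈ A) :
    Sep ρ (G.erase e) (A.erase e) := by
  refine ⟨erase_subset_erase _ s.1, ?_⟩
  have h1 := s.add h (erase_subset e G)
  have e1 : G.erase e ∩ A = A.erase e := by
    ext x; simp only [mem_inter, mem_erase]; have := @s.1 x; tauto
  have e2 : G.erase e \ A.erase e = G.erase e \ A := by
    ext x; simp only [mem_sdiff, mem_erase]; tauto
  rw [e1] at h1; rw [e2]; omega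

lemma Sep.con (h : RK ρ) {G A : Finset ℕ} (s : Sep ρ G A) {e : ℕ} (he : e ∈ A) :
    Sep (con ρ e) (G.erase e) (A.erase e) := by
  refine ⟨erase_subset_erase _ s.1, ?_⟩
  have h1 := con_add h e (A.erase e)
  have h2 := con_add h e (G.erase e)
  have h3 := con_add h e (G.erase e \ A.erase e)
  rw [insert_erase he] at h1
  rw [insert_erase (s.1 he)] at h2
  have h4 := h.sub {e} (G \ A)
  have h5 := h.mono (insert e (G.erase e \ A.erase e)) ({e} ∪ G \ A) (by
    intro x; simp only [mem_union, mem_sdiff, mem_erase, mem_insert, mem_singleton]; tauto)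
  have := s.2
  omega

lemma sep_of_not_par : ∀ (n : ℕ) (G : Finset ℕ) (ρ : Finset ℕ → ℕ), G.card = n → RK ρ →
    ∀ x ∈ G, ∀ y ∈ G, x ≠ y → ¬ Par ρ G x y → ∃ A, Sep ρ G A ∧ x ∈ A ∧ y ∉ A := by
  intro n
  induction n with
  | zero => intro G ρ hG _ x hx; rw [card_eq_zero] at hG; simp [hG] at hx
  | succ n ih =>
    intro G ρ hG h x hx y hy hxy hp
    by_cases hs : G ⊆ {x, y}
    · have e : G = {x, y} := Subset.antisymm hs (by simp [insert_subset_iff, hx, hy])
      refine ⟨{x}, ⟨by simpa using hx, ?_⟩, by simp, by simpa using hxy.symm⟩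
      have e2 : G \ {x} = {y} := by
        rw [e]; ext z; simp only [mem_sdiff, mem_insert, mem_singleton]
        constructor
        · tauto
        · rintro rfl; exact ⟨Or.inr rfl, hxy.symm⟩
      rw [e2, e]
      by_contra hh
      apply hp
      have := h.one x
      have := h.one y
      have := h.mono {x} {x, y} (by simp)
      have := h.mono {y} {x, y} (by simp)
      refine ⟨hx, hy, ∅, by simp, ?_, ?_, ?_⟩ <;> simp only [Cl, insert_empty_eq, h.emp] <;> omega
    · obtain ⟨e, he, hne⟩ := not_subset.1 hs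
      simp only [mem_insert, mem_singleton, not_or] at hne
      have hc : (G.erase e).card = n := by rw [card_erase_of_mem he]; omega
      have hx' : x ∈ G.erase e := mem_erase.2 ⟨fun a => hne.1 a.symm, hx⟩
      have hy' : y ∈ G.erase e := mem_erase.2 ⟨fun a => hne.2 a.symm, hy⟩
      obtain ⟨A, ⟨a1, a2⟩, a3, a4⟩ := ih _ ρ hc h x hx' y hy' hxy (by
        rintro ⟨_, _, Z, c, d⟩
        exact hp ⟨hx, hy, Z, c.trans (erase_subset _ _), d⟩)
      obtain ⟨B, ⟨b1, b2⟩, b3, b4⟩ := ih _ (con ρ e) hc (con_RK h e) x hx' y hy' hxy (by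
        rintro ⟨_, _, Z, c, d1, d2, d3⟩
        rw [Cl_con h] at d1 d2 d3
        exact hp ⟨hx, hy, insert e Z, insert_subset he (c.trans (erase_subset _ _)), d1, d2,
          by rwa [insert_comm]⟩)
      have h1 := con_add h e B
      have h2 := con_add h e (G.erase e \ B)
      have h3 := con_add h e (G.erase e)
      rw [insert_erase he] at h3
      have h4 := h.sub A (insert e B)
      have h5 := h.sub (G.erase e \ A) (insert e (G.erase e \ B))
      have h6 := h.one e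
      have h7 := h.mono _ _ (erase_subset e G)
      have m1 := h.mono (A ∩ B) (A ∩ insert e B) (by intro z; simp only [mem_inter, mem_insert]; tauto)
      have m2 := h.mono (G \ (A ∩ B)) (G.erase e \ A ∪ insert e (G.erase e \ B)) (by
        intro z; simp only [mem_union, mem_sdiff, mem_erase, mem_insert, mem_inter]; tauto)
      have m3 := h.mono (G \ (A ∪ insert e B)) (G.erase e \ A ∩ insert e (G.erase e \ B)) (by
        intro z; simp only [mem_union, mem_sdiff, mem_erase, mem_insert, mem_inter]; tauto)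
      have sAB : A ∪ insert e B ⊆ G := union_subset (a1.trans (erase_subset _ _))
        (insert_subset he (b1.trans (erase_subset _ _)))
      by_cases c : ρ (A ∩ B) + ρ (G \ (A ∩ B)) ≤ ρ G
      · exact ⟨A ∩ B, ⟨inter_subset_left.trans (a1.trans (erase_subset _ _)), c⟩,
          mem_inter.2 ⟨a3, b3⟩, fun a => a4 (mem_inter.1 a).1⟩
      · refine ⟨A ∪ insert e B, ⟨sAB, ?_⟩, mem_union_left _ a3, ?_⟩
        · have := h.sub (A ∪ insert e B) (G \ (A ∪ insert e B))
          omega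
        · simp only [mem_union, mem_insert, not_or]
          exact ⟨a4, fun a => hne.2 a.symm, b4⟩

lemma indep_sub (h : RK ρ) {X Y : Finset ℕ} (hY : ρ Y = Y.card) (hX : X ⊆ Y) : ρ X = X.card := by
  have h1 := h.sub X (Y \ X)
  rw [union_sdiff_of_subset hX] at h1
  have h2 := h.le_card (Y \ X)
  have h3 := h.le_card X
  have h4 := card_sdiff_add_card_eq_card hX
  omega

lemma indep_of (h : RK ρ) (X : Finset ℕ) (hX : ∀ z ∈ X, ¬ Cl ρ (X.erase z) z) : ρ X = X.card := by
  induction X using Finset.induction_on with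
  | empty => simp [h.emp]
  | insert p X hp ih =>
    have h1 := hX p (by simp)
    rw [erase_insert hp] at h1
    have h2 := ih fun z hz c => hX z (by simp [hz])
      (h.Cl_mono (erase_subset_erase _ (subset_insert _ _)) c)
    have := h.ins X p
    unfold Cl at h1
    rw [card_insert_of_notMem hp]; omega

lemma Par.circ (h : RK ρ) {G : Finset ℕ} {x y : ℕ} (p : Par ρ G x y) (hxy : x ≠ y) :
    ∃ K ⊆ G, Circ ρ K ∧ x ∈ K ∧ y ∈ K := by
  classical
  obtain ⟨a, b, Z, c, d, e, f⟩ := p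
  obtain ⟨W, hW, hmin⟩ := exists_min_image
    ((insert y Z).powerset.filter fun W => Cl ρ W x) card ⟨insert y Z, by simp [f]⟩
  simp only [mem_filter, mem_powerset, and_imp] at hW hmin
  have hxZ : x ∉ insert y Z := by
    simp only [mem_insert, not_or]; exact ⟨hxy, fun a => d (Cl_mem a)⟩
  have hxW : x ∉ W := fun a => hxZ (hW.1 a)
  have hm : ∀ z ∈ W, ¬ Cl ρ (W.erase z) x := fun z hz cz => by
    have := hmin _ ((erase_subset _ _).trans hW.1) cz
    rw [card_erase_of_mem hz] at this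
    have := card_pos.2 ⟨z, hz⟩
    omega
  have hI : ρ W = W.card := indep_of h W fun z hz cz => hm z hz (h.Cl_trans (W := W)
    (fun q hq => by
      by_cases hqz : q = z
      · rw [hqz]; exact cz
      · exact Cl_mem (mem_erase.2 ⟨hqz, hq⟩)) hW.2)
  refine ⟨insert x W, insert_subset a (hW.1.trans (insert_subset b c)), ⟨?_, fun K' hK => ?_⟩,
    by simp, mem_insert_of_mem ?_⟩
  · have := hW.2; unfold Cl at this; rw [card_insert_of_notMem hxW]; omega
  · obtain ⟨z, hz, hzK⟩ := exists_of_ssubset hK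
    rcases mem_insert.1 hz with rfl | hz'
    · exact indep_sub h hI (fun q hq => (mem_insert.1 (hK.1 hq)).resolve_left (by rintro rfl; exact hzK hq))
    · refine indep_sub h (Y := insert x (W.erase z)) ?_ ?_
      · have h1 := hm z hz'
        have h2 := indep_sub h hI (erase_subset z W)
        have h3 := h.ins (W.erase z) x
        unfold Cl at h1
        rw [card_insert_of_notMem (fun a => hxW (mem_of_mem_erase a))]; omega
      · intro q hq
        rcases mem_insert.1 (hK.1 hq) with a | a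
        · simp [a]
        · exact mem_insert_of_mem (mem_erase.2 ⟨by rintro rfl; exact hzK hq, a⟩)
  · by_contra hy
    exact d (h.Cl_mono (fun q hq => (mem_insert.1 (hW.1 hq)).resolve_left
      (by rintro rfl; exact hy hq)) hW.2)

lemma Sep.circ (h : RK ρ) {G A K : Finset ℕ} (s : Sep ρ G A) (hK : K ⊆ G) (c : Circ ρ K) {x : ℕ}
    (hx : x ∈ K) (hA : x ∈ A) : K ⊆ A := by
  by_contra hh
  obtain ⟨y, hy, hyA⟩ := not_subset.1 hh
  have h1 := s.add h hK
  have h2 := c.2 (K ∩ A) ⟨inter_subset_left, fun a => hyA (mem_inter.1 (a hy)).2⟩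
  have h3 := c.2 (K \ A) ⟨sdiff_subset, fun a => (mem_sdiff.1 (a hx)).2 hA⟩
  have h4 := card_sdiff_add_card_inter K A
  have := c.1
  omega

lemma exists_comp (h : RK ρ) {G : Finset ℕ} {x : ℕ} (hx : x ∈ G) :
    ∃ S, Sep ρ G S ∧ x ∈ S ∧ Comp G ρ S := by
  classical
  obtain ⟨S, hS, hmin⟩ := exists_min_image (G.powerset.filter fun S => Sep ρ G S ∧ x ∈ S) card
    ⟨G, by simp [Sep, hx, h.emp]⟩
  simp only [mem_filter, mem_powerset, and_imp] at hS hmin
  obtain ⟨s1, s2, s3⟩ := hS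
  have key : ∀ A, Sep ρ G A → x ∈ A → S ⊆ A := fun A a b => by
    have t := s2.inter h a
    have := hmin _ t.1 t (mem_inter.2 ⟨s3, b⟩)
    rw [← eq_of_subset_of_card_le inter_subset_left this]
    exact inter_subset_right
  refine ⟨S, s2, s3, ⟨s1, fun y hy z hz hyz => ?_⟩, fun S' hS' hle y hy => ?_⟩
  · by_cases p : Par ρ G y z
    · exact p.circ h hyz
    · obtain ⟨A, a, b, c⟩ := sep_of_not_par _ G ρ rfl h y (s1 hy) z (s1 hz) hyz p
      by_cases hxA : x ∈ A
      · exact absurd (key A a hxA hz) c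
      · exact absurd b (mem_sdiff.1 (key _ a.compl (mem_sdiff.2 ⟨hx, hxA⟩) hy)).2
  · by_cases hxy : x = y
    · rw [← hxy]; exact s3
    · obtain ⟨K, k1, k2, k3, k4⟩ := hS'.2 x (hle s3) y hy hxy
      exact s2.circ h k1 k2 k3 s3 k4

/-- local depth bound at `x` -/
def LD (k : ℕ) (G : Finset ℕ) (ρ : Finset ℕ → ℕ) (x : ℕ) : Prop :=
  ∃ C, Sep ρ G C ∧ x ∈ C ∧ Dep TCD k C ρ

lemma LD.step (h : RK ρ) {k : ℕ} {G : Finset ℕ} {x y : ℕ} (l : LD (k + 1) G ρ x)
    (p : Par ρ G x y) (hxy : x ≠ y) :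
    ∃ e, (∀ z, z ≠ e → (z = x ∨ Par ρ G x z) → LD k (G.erase e) ρ z) ∨
      (∀ z, z ≠ e → (z = x ∨ Par ρ G x z) → LD k (G.erase e) (con ρ e) z) := by
  obtain ⟨C, c1, c2, c3⟩ := l
  obtain ⟨S, s1, s2, s3⟩ := exists_comp h c2
  have t := c1.trans h s1
  have mem : ∀ z, (z = x ∨ Par ρ G x z) → z ∈ S := by
    rintro z (rfl | a)
    · exact s2
    · exact (t.par h s2 a).2.1
  rcases c3 S s3 with a | ⟨E', r', ⟨e, he, rfl, rfl | rfl⟩, d⟩
  · obtain ⟨w, rfl⟩ := card_eq_one.1 a
    have := mem y (Or.inr p)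
    rw [mem_singleton] at this s2
    exact absurd (s2.trans this.symm) hxy
  · exact ⟨e, Or.inl fun z a b => ⟨_, t.del h he, mem_erase.2 ⟨a, mem z b⟩, d⟩⟩
  · exact ⟨e, Or.inr fun z a b => ⟨_, t.con h he, mem_erase.2 ⟨a, mem z b⟩, d⟩⟩

lemma L2 (h : RK ρ) {G : Finset ℕ} {x y : ℕ} (p : Par ρ G x y) (hxy : x ≠ y) : ¬ LD 1 G ρ x := by
  rintro ⟨C, c1, c2, c3⟩
  obtain ⟨S, s1, s2, s3⟩ := exists_comp h c2
  rcases c3 S s3 with a | ⟨E', r', _, d⟩
  · obtain ⟨w, rfl⟩ := card_eq_one.1 a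
    have := ((c1.trans h s1).par h s2 p).2.1
    rw [mem_singleton] at this s2
    exact absurd (s2.trans this.symm) hxy
  · exact d

end Pool.Agent.H.MP_17585b_co
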