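import Pool.Agent.H.MP_17585b_co.A

set_option autoImplicit false

namespace Pool.Agent.H.MP_17585b_co

open Finset Pool.Agent.H.MP_76f918_co

variable {ρ : Finset ℕ → ℕ}

def PP (J : Finset ℕ) : Finset ℕ := J.biUnion fun j => {2 * j, 2 * j + 1}
def AA (J : Finset ℕ) : Finset ℕ := J.image (2 * ·)

lemma mem_PP {J : Finset ℕ} {x : ℕ} : x ∈ PP J ↔ x / 2 ∈ J := by
  simp only [PP, mem_biUnion, mem_insert, mem_singleton]
  constructor
  · rintro ⟨j, hj, rfl | rfl⟩
    · rwa [show 2 * j / 2 = j by omega]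
    · rwa [show (2 * j + 1) / 2 = j by omega]
  · intro h; exact ⟨_, h, by omega⟩

lemma PP_mono {I J : Finset ℕ} (h : I ⊆ J) : PP I ⊆ PP J := fun _ hx => mem_PP.2 (h (mem_PP.1 hx))
lemma PP_union (I J : Finset ℕ) : PP (I ∪ J) = PP I ∪ PP J := by ext; simp [mem_PP]
lemma PP_inter (I J : Finset ℕ) : PP (I ∩ J) = PP I ∩ PP J := by ext; simp [mem_PP]
lemma PP_one (j : ℕ) : PP {j} = {2 * j, 2 * j + 1} := by simp [PP]
lemma ev_PP {J : Finset ℕ} {t : ℕ} (h : t ∈ J) : 2 * t ∈ PP J :=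
  mem_PP.2 (by rwa [show 2 * t / 2 = t by omega])
lemma od_PP {J : Finset ℕ} {t : ℕ} (h : t ∈ J) : 2 * t + 1 ∈ PP J :=
  mem_PP.2 (by rwa [show (2 * t + 1) / 2 = t by omega])
lemma AA_PP {J : Finset ℕ} : AA J ⊆ PP J := by
  intro x hx; obtain ⟨t, ht, rfl⟩ := mem_image.1 hx; exact ev_PP ht
lemma PP_er {G I : Finset ℕ} (h : PP I ⊆ G) (e : ℕ) : PP (I.erase (e / 2)) ⊆ G.erase e := by
  intro x hx
  refine mem_erase.2 ⟨?_, h (PP_mono (erase_subset _ _) hx)⟩
  rintro rfl; simp [mem_PP] at hx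
lemma PP_er' {G I : Finset ℕ} (h : PP I ⊆ G) {e : ℕ} (he : e ∉ PP I) : PP I ⊆ G.erase e :=
  fun _ hx => mem_erase.2 ⟨by rintro rfl; exact he hx, h hx⟩

lemma meet (h : RK ρ) {X Y : Finset ℕ} {q : ℕ} (a : Cl ρ X q) (b : Cl ρ Y q)
    (hm : ρ X + ρ Y ≤ ρ (X ∪ Y) + ρ (X ∩ Y)) : Cl ρ (X ∩ Y) q := by
  have := Pool.Agent.H.MP_e89f49_co.sp_inter h (X := X) (Y := Y) (H := {q})
    (by unfold Pool.Agent.H.MP_e89f49_co.Sp; rw [union_comm]; exact a)
    (by unfold Pool.Agent.H.MP_e89f49_co.Sp; rw [union_comm]; exact b) hm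
  unfold Pool.Agent.H.MP_e89f49_co.Sp at this
  rw [union_comm] at this
  exact this

lemma con_same (h : RK ρ) {U : Finset ℕ} {x : ℕ} (hx : ρ {x} = 0 ∨ ¬ Cl ρ U x) {X : Finset ℕ}
    (hX : X ⊆ U) : con ρ x X = ρ X := by
  have h1 := con_add h x X
  have h2 := h.sub {x} X
  have h3 := h.mono X (insert x X) (subset_insert _ _)
  have h4 := h.one x
  rw [singleton_union] at h2
  rcases hx with a | a
  · omega
  · have : ¬ Cl ρ X x := fun c => a (h.Cl_mono hX c)
    unfold Cl at this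
    omega

lemma down (h : RK ρ) {I : Finset ℕ} {x : ℕ} (hx : ∀ i ∈ I, Cl ρ (PP (I.erase i)) x)
    (hI : I.Nonempty) (g : Finset ℕ → Prop) (g1 : ∀ J i, g J → g (insert i J))
    (g2 : ∀ J ⊆ I, ∀ i ∈ I, i ∉ J → g J →
      ρ (PP (insert i J)) + ρ (PP (I.erase i)) ≤ ρ (PP I) + ρ (PP J)) :
    ∀ n J, J ⊆ I → I.card = J.card + n → g J → Cl ρ (PP J) x := by
  intro n
  induction n with
  | zero =>
    intro J hJ hc _
    rw [eq_of_subset_of_card_le hJ (by omega)]
    obtain ⟨i, hi⟩ := hI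
    exact h.Cl_mono (PP_mono (erase_subset _ _)) (hx i hi)
  | succ n ih =>
    intro J hJ hc hg
    obtain ⟨i, hi, hiJ⟩ := exists_mem_notMem_of_card_lt_card (s := J) (t := I) (by omega)
    have h1 := ih (insert i J) (insert_subset hi hJ) (by rw [card_insert_of_notMem hiJ]; omega)
      (g1 J i hg)
    have e1 : insert i J ∪ I.erase i = I := by
      ext z; simp only [mem_union, mem_insert, mem_erase]; have := @hJ z
      constructor
      · rintro ((rfl | a) | a) <;> tauto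
      · tauto
    have e2 : insert i J ∩ I.erase i = J := by
      ext z; simp only [mem_inter, mem_insert, mem_erase]; have := @hJ z
      constructor
      · tauto
      · intro a; exact ⟨Or.inr a, by rintro rfl; exact hiJ a, this a⟩
    have := meet h h1 (hx i hi) (by rw [← PP_union, ← PP_inter, e1, e2]; exact g2 J hJ i hi hiJ hg)
    rwa [← PP_inter, e2] at this

structure At (ρ : Finset ℕ → ℕ) (I : Finset ℕ) : Prop where
  a1 : ∀ J ⊆ I, ρ (PP J) = J.card
  a2 : ∀ y ∈ PP I, ρ {y} = 1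

lemma At.mono {I J : Finset ℕ} (s : At ρ I) (h : J ⊆ I) : At ρ J :=
  ⟨fun L a => s.a1 L (a.trans h), fun y b => s.a2 y (PP_mono h b)⟩

lemma At.par (h : RK ρ) {I G : Finset ℕ} (s : At ρ I) (hG : PP I ⊆ G) {t : ℕ} (ht : t ∈ I) :
    Par ρ G (2 * t) (2 * t + 1) := by
  have h1 := s.a2 _ (ev_PP ht)
  have h2 := s.a2 _ (od_PP ht)
  have h3 := s.a1 {t} (by simpa using ht)
  rw [PP_one, card_singleton] at h3
  refine ⟨hG (ev_PP ht), hG (od_PP ht), ∅, by simp, ?_, ?_, ?_⟩ <;>
    simp only [Cl, insert_empty_eq, h.emp] <;> omega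

lemma At.dich (h : RK ρ) {I : Finset ℕ} (s : At ρ I) (hI : I.Nonempty) (x : ℕ) :
    ∃ i ∈ I, At (con ρ x) (I.erase i) ∧ x ∉ PP (I.erase i) := by
  have : ∃ i ∈ I, ρ {x} = 0 ∨ ¬ Cl ρ (PP (I.erase i)) x := by
    by_contra hh
    push Not at hh
    have := down h (fun i hi => (hh i hi).2) hI (fun _ => True) (by simp) (fun J hJ i hi hiJ _ => by
      rw [s.a1 _ (insert_subset hi hJ), s.a1 _ (erase_subset _ _), s.a1 _ Subset.rfl, s.a1 _ hJ,
        card_insert_of_notMem hiJ, card_erase_of_mem hi]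
      have := card_pos.2 hI
      omega) I.card ∅ (by simp) (by simp) trivial
    obtain ⟨i, hi⟩ := hI
    have := (hh i hi).1
    simp only [Cl, PP, biUnion_empty, insert_empty_eq, h.emp] at *
    omega
  obtain ⟨i, hi, hx⟩ := this
  have s' := s.mono (erase_subset i I)
  refine ⟨i, hi, ⟨fun J hJ => ?_, fun y hy => ?_⟩, fun a => ?_⟩
  · rw [con_same h hx (PP_mono hJ), s'.a1 J hJ]
  · rw [con_same h hx (by simpa using hy), s'.a2 y hy]
  · rcases hx with b | b
    · have := s'.a2 x a; omega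
    · exact b (Cl_mem a)

def Inv (ρ : Finset ℕ → ℕ) (G I : Finset ℕ) (c : ℕ) : Prop :=
  ∀ J ⊆ I, ∃ R ⊆ G, (∀ t ∈ J, Cl ρ (R ∪ AA (J.erase t)) (2 * t)) ∧
    ρ R + J.card ≤ ρ (R ∪ AA J) + c + 1

lemma Inv.con (h : RK ρ) {G I I' : Finset ℕ} {c x : ℕ} (v : Inv ρ G I c) (hI : I' ⊆ I) :
    Inv (con ρ x) (G.erase x) I' (c + 1) := by
  intro J hJ
  obtain ⟨R, r1, r3, r4⟩ := v J (hJ.trans hI)
  refine ⟨R.erase x, erase_subset_erase _ r1, fun t ht => ?_, ?_⟩
  · rw [Cl_con h]
    exact h.Cl_mono (by intro z; simp only [mem_union, mem_insert, mem_erase]; tauto) (r3 t ht)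
  · have h1 := con_add h x (R.erase x)
    have h2 := con_add h x (R.erase x ∪ AA J)
    have h3 := h.mono (R ∪ AA J) (insert x (R.erase x ∪ AA J))
      (by intro z; simp only [mem_union, mem_insert, mem_erase]; tauto)
    have h4 := h.mono (insert x (R.erase x)) (insert x R)
      (insert_subset_insert _ (erase_subset _ _))
    have h5 := h.ins R x
    omega

lemma Inv.par (h : RK ρ) {G I J : Finset ℕ} {c : ℕ} (v : Inv ρ G I c) (hG : PP I ⊆ G)
    (hJI : J ⊆ I) (hc : c + 2 ≤ J.card) :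
    ∃ i ∈ J, ∃ j ∈ J, i ≠ j ∧ Par ρ G (2 * i) (2 * j) := by
  by_contra hh
  push Not at hh
  obtain ⟨R, r1, r3, r4⟩ := v J hJI
  have key : ∀ t ∈ J, ∀ L : Finset ℕ, L ⊆ J.erase t → Cl ρ (R ∪ AA L) (2 * t) → Cl ρ R (2 * t) := by
    intro t ht L
    induction L using Finset.induction_on with
    | empty => intro _ a; simpa [AA] using a
    | insert s L _ ih =>
      intro hL a
      have hL' := (subset_insert s L).trans hL
      have hs := mem_erase.1 (hL (mem_insert_self s L))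
      refine ih hL' ?_
      by_contra b
      rw [show R ∪ AA (insert s L) = insert (2 * s) (R ∪ AA L) by simp [AA]] at a
      refine hh t ht s hs.2 hs.1.symm ⟨hG (ev_PP (hJI ht)), hG (ev_PP (hJI hs.2)), R ∪ AA L,
        union_subset r1 (AA_PP.trans ((PP_mono (hL'.trans ((erase_subset _ _).trans hJI))).trans hG)),
        b, fun d => b (h.Cl_trans (fun q hq => ?_) a), a⟩
      rcases mem_insert.1 hq with rfl | hq
      · exact d
      · exact Cl_mem hq
  have := h.Cl_all (X := R) (W := AA J) (fun q hq => by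
    obtain ⟨t, ht, rfl⟩ := mem_image.1 hq
    exact key t ht _ Subset.rfl (r3 t ht))
  rw [union_comm] at this
  omega

lemma Inv.mono {G I I' : Finset ℕ} {c c' : ℕ} (v : Inv ρ G I c) (hI : I' ⊆ I) (hc : c ≤ c') :
    Inv ρ G I' c' := fun J hJ => by
  obtain ⟨R, a, b, d⟩ := v J (hJ.trans hI)
  exact ⟨R, a, b, by omega⟩

/-- robust form: `n` more deletions, `w` of them outside `Q` -/
def Rob (ρ : Finset ℕ → ℕ) (G I Q : Finset ℕ) (n w c : ℕ) : Prop :=
  ∀ D : Finset ℕ, D.card ≤ n → (D ∩ Q).card + w ≤ n → Inv ρ (G \ D) (I \ D.image (· / 2)) c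

lemma Rob.mono {G I I' Q : Finset ℕ} {n w c c' : ℕ} (v : Rob ρ G I Q n w c) (hI : I' ⊆ I)
    (hc : c ≤ c') : Rob ρ G I' Q n w c' :=
  fun D a b => (v D a b).mono (sdiff_subset_sdiff hI Subset.rfl) hc

lemma Rob.del {G I Q : Finset ℕ} {n w w' c e : ℕ} (v : Rob ρ G I Q (n + 1) w c)
    (hw : w' = w ∨ (w' + 1 = w ∧ e ∉ Q)) :
    Rob ρ (G.erase e) (I.erase (e / 2)) Q n w' c := by
  intro D a b
  have h1 := card_insert_le e D
  have h2 : (insert e D ∩ Q).card + w ≤ n + 1 := by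
    rcases hw with rfl | ⟨rfl, c⟩
    · have := card_le_card (show insert e D ∩ Q ⊆ insert e (D ∩ Q) by
        intro z; simp only [mem_inter, mem_insert]; tauto)
      have := card_insert_le e (D ∩ Q)
      omega
    · rw [insert_inter_of_notMem c]; omega
  have := v (insert e D) (by omega) h2
  rwa [image_insert, sdiff_insert, sdiff_insert, ← erase_sdiff_comm, ← erase_sdiff_comm] at this

lemma Rob.con (h : RK ρ) {G I I' Q : Finset ℕ} {n w w' c e : ℕ} (v : Rob ρ G I Q (n + 1) w c)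
    (hw : w ≤ w' + 1) (hI : I' ⊆ I) : Rob (con ρ e) (G.erase e) I' Q n w' (c + 1) := by
  intro D a b
  rw [erase_sdiff_comm]
  exact (v D (by omega) (by omega)).con h (sdiff_subset_sdiff hI Subset.rfl)

lemma card_er (I : Finset ℕ) (i : ℕ) : I.card ≤ (I.erase i).card + 1 := by
  have := pred_card_le_card_erase (s := I) (a := i); omega

lemma stepA (h : RK ρ) {k : ℕ} {G I : Finset ℕ} (s : At ρ I) (hI : I.Nonempty) {x y : ℕ}
    (l : LD (k + 1) G ρ x) (p : Par ρ G x y) (hxy : x ≠ y)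
    (hp : ∀ t ∈ I, 2 * t = x ∨ Par ρ G x (2 * t)) :
    ∃ e, (∀ t ∈ I.erase (e / 2), LD k (G.erase e) ρ (2 * t)) ∨
      ∃ i, At (con ρ e) (I.erase i) ∧ e ∉ PP (I.erase i) ∧
        ∀ t ∈ I.erase i, LD k (G.erase e) (con ρ e) (2 * t) := by
  obtain ⟨e, a | a⟩ := l.step h p hxy
  · exact ⟨e, Or.inl fun t ht => a _ (by have := (mem_erase.1 ht).1; omega)
      (hp t (mem_of_mem_erase ht))⟩
  · obtain ⟨i, _, b, c⟩ := s.dich h hI e
    exact ⟨e, Or.inr ⟨i, b, c, fun t ht => a _ (by rintro rfl; exact c (ev_PP ht))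
      (hp t (mem_of_mem_erase ht))⟩⟩

lemma L2a (h : RK ρ) {G I : Finset ℕ} (s : At ρ I) (hG : PP I ⊆ G) (hI : 1 ≤ I.card)
    (l : ∀ t ∈ I, LD 1 G ρ (2 * t)) : False := by
  obtain ⟨t, ht⟩ := card_pos.1 (show 0 < I.card by omega)
  exact L2 h (s.par h hG ht) (by omega) (l t ht)

lemma L3a (h : RK ρ) {G I : Finset ℕ} (s : At ρ I) (hG : PP I ⊆ G) {i j : ℕ} (hi : i ∈ I)
    (hj : j ∈ I) (hij : i ≠ j) (p : Par ρ G (2 * i) (2 * j)) (l : LD 2 G ρ (2 * i)) : False := by
  have hs : ({i, j} : Finset ℕ) ⊆ I := by simp [insert_subset_iff, hi, hj]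
  have hG' := (PP_mono hs).trans hG
  have hc := card_pair hij
  obtain ⟨e, a | ⟨t, a, b, c⟩⟩ := stepA h (s.mono hs) (by simp) l p (by omega) (by simp [p])
  · exact L2a h (s.mono ((erase_subset _ _).trans hs)) (PP_er hG' e)
      (by have := card_er {i, j} (e / 2); omega) a
  · exact L2a (con_RK h e) a (PP_er' ((PP_mono (erase_subset _ _)).trans hG') b)
      (by have := card_er {i, j} t; omega) c

open Classical in
lemma pigeon (R : ℕ → ℕ → Prop) (hR : ∀ a b, R a b → R b a) (s : ℕ) : ∀ (c : ℕ) (J : Finset ℕ),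
    (∀ L ⊆ J, c + 1 ≤ L.card → ∃ i ∈ L, ∃ j ∈ L, i ≠ j ∧ R i j) → c * s < J.card →
    ∃ b ∈ J, s < (J.filter fun t => t = b ∨ R b t).card := by
  intro c
  induction c with
  | zero =>
    intro J hJ hc
    obtain ⟨b, hb⟩ := card_pos.1 (show 0 < J.card by omega)
    obtain ⟨i, hi, j, hj, hij, _⟩ := hJ {b} (by simpa using hb) (by simp)
    rw [mem_singleton] at hi hj
    exact absurd (hi.trans hj.symm) hij
  | succ c ih =>
    intro J hJ hc
    obtain ⟨b, hb⟩ := card_pos.1 (show 0 < J.card by omega)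
    by_cases c1 : s < (J.filter fun t => t = b ∨ R b t).card
    · exact ⟨b, hb, c1⟩
    have h1 := card_filter_add_card_filter_not (s := J) (fun t => t = b ∨ R b t)
    obtain ⟨b', a1, a2⟩ := ih (J.filter fun t => ¬ (t = b ∨ R b t)) (fun L hL hc' => by
      have hbL : b ∉ L := fun a => by simpa using hL a
      obtain ⟨i, hi, j, hj, hij, r⟩ := hJ (insert b L)
        (insert_subset hb (hL.trans (filter_subset _ _))) (by rw [card_insert_of_notMem hbL]; omega)
      have k : ∀ t ∈ L, ¬ R b t := fun t ht a => (mem_filter.1 (hL ht)).2 (Or.inr a)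
      rcases mem_insert.1 hi with rfl | hi' <;> rcases mem_insert.1 hj with rfl | hj'
      · exact absurd rfl hij
      · exact absurd r (k j hj')
      · exact absurd (hR _ _ r) (k i hi')
      · exact ⟨i, hi', j, hj', hij, r⟩) (by rw [Nat.succ_mul] at hc; omega)
    exact ⟨b', (filter_subset _ _) a1,
      a2.trans_le (card_le_card (filter_subset_filter _ (filter_subset _ _)))⟩

def NN : ℕ → ℕ → ℕ
  | 0, c => c + 2
  | n + 1, c => (c + 1) * NN n (c + 1) + 1

lemma safe {Q : Finset ℕ} : ∀ (n c : ℕ) (ρ : Finset ℕ → ℕ) (G J : Finset ℕ), RK ρ → At ρ J →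
    PP J ⊆ G → Rob ρ G J Q n 0 c → NN n c ≤ J.card → (∀ t ∈ J, LD (n + 2) G ρ (2 * t)) → False := by
  classical
  intro n
  induction n with
  | zero =>
    intro c ρ G J h s hG v hN l
    have v0 : Inv ρ G J c := by simpa using v ∅ (by simp) (by simp)
    obtain ⟨i, hi, j, hj, hij, p⟩ := v0.par h hG Subset.rfl hN
    exact L3a h s hG hi hj hij p (l i hi)
  | succ n ih =>
    intro c ρ G J h s hG v hN l
    have v0 : Inv ρ G J c := by simpa using v ∅ (by simp) (by simp)
    obtain ⟨b, hb, hs⟩ := pigeon (fun i j => Par ρ G (2 * i) (2 * j)) (fun _ _ p => p.symm h)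
      (NN n (c + 1)) (c + 1) J (fun L hL hc => v0.par h hG hL hc) hN
    set K := J.filter fun t => t = b ∨ Par ρ G (2 * b) (2 * t) with hK
    have s1 : K ⊆ J := filter_subset _ _
    have hG' := (PP_mono s1).trans hG
    obtain ⟨e, a | ⟨t, a, d, f⟩⟩ := stepA h (s.mono s1) (card_pos.1 (by omega)) (l b hb)
      (s.par h hG hb) (by omega) (fun t ht => (mem_filter.1 ht).2.imp (fun a => by rw [a]) id)
    · exact ih (c + 1) ρ _ _ h (s.mono ((erase_subset _ _).trans s1)) (PP_er hG' e)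
        ((v.mono s1 (Nat.le_succ c)).del (Or.inl rfl)) (by have := card_er K (e / 2); omega) a
    · exact ih (c + 1) _ _ _ (con_RK h e) a (PP_er' ((PP_mono (erase_subset _ _)).trans hG') d)
        (v.con h (by omega) ((erase_subset _ _).trans s1)) (by have := card_er K t; omega) f

/-- the classes indexed by `K` form a circuit -/
structure Ci (ρ : Finset ℕ → ℕ) (K : Finset ℕ) : Prop where
  c1 : ∀ L ⊆ K, ρ (PP L) = min L.card (K.card - 1)
  c2 : ∀ y ∈ PP K, ρ {y} = 1

lemma Ci.at {K I : Finset ℕ} (s : Ci ρ K) (hI : I ⊆ K) (hc : I.card < K.card) : At ρ I :=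
  ⟨fun L hL => by have := card_le_card hL; rw [s.c1 L (hL.trans hI)]; omega,
    fun y hy => s.c2 y (PP_mono hI hy)⟩

lemma Ci.par (h : RK ρ) {K G : Finset ℕ} (s : Ci ρ K) (hG : PP K ⊆ G) {a b : ℕ} (ha : a ∈ K)
    (hb : b ∈ K) (hab : a ≠ b) : Par ρ G (2 * a) (2 * b) := by
  have hc : 2 ≤ K.card := one_lt_card.2 ⟨a, ha, b, hb, hab⟩
  have key : ∀ L ⊆ K, ∀ t ∈ K, t ∉ L → ρ (insert (2 * t) (PP L)) = min (L.card + 1) (K.card - 1) := by
    intro L hL t ht htL
    have h1 := s.c1 _ (insert_subset ht hL)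
    have h2 := s.c1 {t} (by simpa using ht)
    have h3 := s.c2 _ (ev_PP ht)
    have h4 : Cl ρ (insert (2 * t) (PP L)) (2 * t + 1) := h.Cl_mono (X := {2 * t}) (by simp) (by
      unfold Cl; rw [pair_comm, ← PP_one, h2, h3, card_singleton]; omega)
    have h5 := h.mono (insert (2 * t) (PP L)) _ (subset_insert (2 * t + 1) _)
    unfold Cl at h4
    rw [show insert (2 * t + 1) (insert (2 * t) (PP L)) = PP (insert t L) by
      ext z; simp only [mem_insert, mem_PP]
      constructor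
      · rintro (rfl | rfl | a)
        · left; omega
        · left; omega
        · exact Or.inr a
      · rintro (a | a)
        · omega
        · exact Or.inr (Or.inr a)] at h4 h5
    rw [card_insert_of_notMem htL] at h1
    omega
  have sL : (K.erase a).erase b ⊆ K := (erase_subset _ _).trans (erase_subset _ _)
  have cL : ((K.erase a).erase b).card + 2 = K.card := by
    rw [card_erase_of_mem (mem_erase.2 ⟨hab.symm, hb⟩), card_erase_of_mem ha]; omega
  have h1 := key _ sL a ha (by simp)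
  have h2 := key _ sL b hb (by simp)
  have h3 := s.c1 _ sL
  have h4 := s.c1 _ Subset.rfl
  have h5 := h.mono (insert (2 * a) (insert (2 * b) (PP ((K.erase a).erase b)))) (PP K)
    (insert_subset (ev_PP ha) (insert_subset (ev_PP hb) (PP_mono sL)))
  refine ⟨hG (ev_PP ha), hG (ev_PP hb), _, (PP_mono sL).trans hG, ?_, ?_, ?_⟩ <;> unfold Cl <;> omega

lemma phaseB {I J Q Q' : Finset ℕ} (hIJ : Disjoint I J) (hQ : PP I ⊆ Q) (hQ' : PP J ⊆ Q')
    (hQQ : ∀ e ∈ Q, e ∈ Q' → e ∉ PP (I ∪ J)) (hI : 2 ≤ I.card) (hJ : 2 ≤ J.card) {c : ℕ}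
    (h : RK ρ) (s : Ci ρ (I ∪ J)) : ∀ (n : ℕ) (G : Finset ℕ), PP (I ∪ J) ⊆ G →
    Rob ρ G I Q n 1 c → Rob ρ G J Q' n 1 c →
    (∀ m < n, NN m (c + 1) < I.card ∧ NN m (c + 1) < J.card) →
    (∀ t ∈ I ∪ J, LD (n + 2) G ρ (2 * t)) → False := by
  have cu := card_union_of_disjoint hIJ
  have aI := s.at subset_union_left (by omega)
  have aJ := s.at subset_union_right (by omega)
  obtain ⟨i, hi, j, hj, hij⟩ := one_lt_card.1 (show 1 < I.card by omega)
  have hi' := mem_union_left J hi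
  have hj' := mem_union_left J hj
  intro n
  induction n with
  | zero =>
    intro G hG _ _ _ l
    exact L3a h aI ((PP_mono subset_union_left).trans hG) hi hj hij (s.par h hG hi' hj' hij) (l i hi')
  | succ n ih =>
    intro G hG v v' hN l
    have hp : ∀ t ∈ I ∪ J, 2 * t = 2 * i ∨ Par ρ G (2 * i) (2 * t) := fun t ht => by
      by_cases c : i = t
      · exact Or.inl (by rw [c])
      · exact Or.inr (s.par h hG hi' ht c)
    have gI := (PP_mono (subset_union_left (s₂ := J))).trans hG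
    have gJ := (PP_mono (subset_union_right (s₁ := I))).trans hG
    have := hN n (by omega)
    obtain ⟨e, a | a⟩ := (l i hi').step h (s.par h hG hi' hj' hij) (by omega)
    · by_cases c1 : e ∈ Q
      · by_cases c2 : e ∈ Q'
        · have c3 := hQQ e c1 c2
          have c4 : e / 2 ∉ I ∪ J := fun a => c3 (mem_PP.2 a)
          have w := v.del (e := e) (Or.inl rfl)
          have w' := v'.del (e := e) (Or.inl rfl)
          rw [erase_eq_of_notMem (fun a => c4 (mem_union_left _ a))] at w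
          rw [erase_eq_of_notMem (fun a => c4 (mem_union_right _ a))] at w'
          exact ih _ (PP_er' hG c3) w w' (fun m hm => hN m (by omega))
            (fun t ht => a _ (by rintro rfl; exact c3 (ev_PP ht)) (hp t ht))
        · exact safe n (c + 1) ρ _ _ h (aJ.mono (erase_subset _ _)) (PP_er gJ e)
            ((v'.mono Subset.rfl (Nat.le_succ c)).del (Or.inr ⟨rfl, c2⟩))
            (by have := card_er J (e / 2); omega)
            (fun t ht => a _ (by have := (mem_erase.1 ht).1; omega)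
              (hp t (mem_union_right _ (mem_of_mem_erase ht))))
      · exact safe n (c + 1) ρ _ _ h (aI.mono (erase_subset _ _)) (PP_er gI e)
          ((v.mono Subset.rfl (Nat.le_succ c)).del (Or.inr ⟨rfl, c1⟩))
          (by have := card_er I (e / 2); omega)
          (fun t ht => a _ (by have := (mem_erase.1 ht).1; omega)
            (hp t (mem_union_left _ (mem_of_mem_erase ht))))
    · obtain ⟨t, _, b, d⟩ := aI.dich h ⟨i, hi⟩ e
      exact safe n (c + 1) _ _ _ (con_RK h e) b (PP_er' ((PP_mono (erase_subset _ _)).trans gI) d)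
        (v.con h (by omega) (erase_subset _ _)) (by have := card_er I t; omega)
        (fun u hu => a _ (by rintro rfl; exact d (ev_PP hu))
          (hp u (mem_union_left _ (mem_of_mem_erase hu))))

lemma Ci.con (h : RK ρ) {K : Finset ℕ} (s : Ci ρ K) {x : ℕ} (hx : ρ {x} = 0 ∨ ¬ Cl ρ (PP K) x) :
    Ci (con ρ x) K ∧ x ∉ PP K := by
  refine ⟨⟨fun L hL => ?_, fun y hy => ?_⟩, fun a => ?_⟩
  · rw [con_same h hx (PP_mono hL), s.c1 L hL]
  · rw [con_same h hx (by simpa using hy), s.c2 y hy]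
  · rcases hx with b | b
    · have := s.c2 x a; omega
    · exact b (Cl_mem a)

lemma phaseA {I : Fin 3 → Finset ℕ} {W : Finset ℕ} (hd : ∀ i j, i ≠ j → Disjoint (I i) (I j))
    (hW : ∀ i, ∀ e ∈ W, e ∉ PP (I i)) (hI : ∀ i, 2 ≤ (I i).card) {c : ℕ} (h : RK ρ)
    (s : ∀ i j, i ≠ j → Ci ρ (I i ∪ I j))
    (nf : ∀ x, ∃ i j, i ≠ j ∧ (ρ {x} = 0 ∨ ¬ Cl ρ (PP (I i ∪ I j)) x)) :
    ∀ (n : ℕ) (G : Finset ℕ), (∀ i, PP (I i) ⊆ G) → (∀ i, Rob ρ G (I i) (PP (I i) ∪ W) n 2 c) →
    (∀ m, m + 1 < n → ∀ i, NN m (c + 2) < (I i).card) →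
    (∀ i, ∀ t ∈ I i, LD (n + 2) G ρ (2 * t)) → False := by
  obtain ⟨a, ha, b, hb, hab⟩ := one_lt_card.1 (show 1 < (I 0).card from hI 0)
  have QQ : ∀ i j, i ≠ j → ∀ e ∈ PP (I i) ∪ W, e ∈ PP (I j) ∪ W → e ∉ PP (I i ∪ I j) := by
    intro i j hij e h1 h2 h3
    have := hW i e
    have := hW j e
    have : e / 2 ∈ I i → e / 2 ∉ I j := fun a => disjoint_left.1 (hd i j hij) a
    simp only [mem_union, mem_PP] at *
    tauto
  have gG : ∀ G : Finset ℕ, (∀ i, PP (I i) ⊆ G) → ∀ i j, PP (I i ∪ I j) ⊆ G := fun G hG i j => by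
    rw [PP_union]; exact union_subset (hG i) (hG j)
  intro n
  induction n with
  | zero =>
    intro G hG _ _ l
    have cu := card_union_of_disjoint (hd 0 1 (by decide))
    have := hI 1
    exact L3a h ((s 0 1 (by decide)).at subset_union_left (by omega)) (hG 0) ha hb hab
      ((s 0 1 (by decide)).par h (gG G hG 0 1) (mem_union_left _ ha) (mem_union_left _ hb) hab)
      (l 0 a ha)
  | succ n ih =>
    intro G hG v hN l
    have hp : ∀ i, ∀ t ∈ I i, 2 * t = 2 * a ∨ Par ρ G (2 * a) (2 * t) := fun i t ht => by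
      by_cases c : a = t
      · exact Or.inl (by rw [c])
      by_cases d : i = 0
      · rw [d] at ht
        exact Or.inr ((s 0 1 (by decide)).par h (gG G hG 0 1) (mem_union_left _ ha)
          (mem_union_left _ ht) c)
      · exact Or.inr ((s 0 i (Ne.symm d)).par h (gG G hG 0 i) (mem_union_left _ ha)
          (mem_union_right _ ht) c)
    obtain ⟨e, k | k⟩ := (l 0 a ha).step h ((hp 0 b hb).resolve_left (by omega)) (by omega)
    · have dl : ∀ i w, (w = 2 ∨ (w + 1 = 2 ∧ e ∉ PP (I i) ∪ W)) → e ∉ PP (I i) →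
          Rob ρ (G.erase e) (I i) (PP (I i) ∪ W) n w c := fun i w hw he => by
        have := (v i).del (e := e) hw
        rwa [erase_eq_of_notMem (fun a => he (mem_PP.2 a))] at this
      by_cases c1 : e ∈ W
      · exact ih _ (fun i => PP_er' (hG i) (hW i e c1)) (fun i => dl i 2 (Or.inl rfl) (hW i e c1))
          (fun m hm => hN m (by omega))
          (fun i t ht => k _ (by rintro rfl; exact hW i _ c1 (ev_PP ht)) (hp i t ht))
      · obtain ⟨i, j, hij, ei, ej⟩ : ∃ i j, i ≠ j ∧ e ∉ PP (I i) ∧ e ∉ PP (I j) := by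
          have d01 : e / 2 ∈ I 0 → e / 2 ∉ I 1 := fun a => disjoint_left.1 (hd 0 1 (by decide)) a
          have d02 : e / 2 ∈ I 0 → e / 2 ∉ I 2 := fun a => disjoint_left.1 (hd 0 2 (by decide)) a
          have d12 : e / 2 ∈ I 1 → e / 2 ∉ I 2 := fun a => disjoint_left.1 (hd 1 2 (by decide)) a
          simp only [mem_PP]
          by_cases c0 : e / 2 ∈ I 0
          · exact ⟨1, 2, by decide, d01 c0, d02 c0⟩
          by_cases c1 : e / 2 ∈ I 1
          · exact ⟨0, 2, by decide, c0, d12 c1⟩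
          · exact ⟨0, 1, by decide, c0, c1⟩
        have eij : e ∉ PP (I i ∪ I j) := by rw [PP_union, mem_union]; tauto
        refine phaseB (hd i j hij) subset_union_left subset_union_left (QQ i j hij) (hI i) (hI j)
          h (s i j hij) n _ (PP_er' (gG G hG i j) eij)
          ((dl i 1 (Or.inr ⟨rfl, by simp [ei, c1]⟩) ei).mono Subset.rfl (Nat.le_succ c))
          ((dl j 1 (Or.inr ⟨rfl, by simp [ej, c1]⟩) ej).mono Subset.rfl (Nat.le_succ c))
          (fun m hm => ⟨hN m (by omega) i, hN m (by omega) j⟩)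
          (fun t ht => k _ (by rintro rfl; exact eij (ev_PP ht)) ?_)
        rcases mem_union.1 ht with a | a
        · exact hp i t a
        · exact hp j t a
    · obtain ⟨i, j, hij, hx⟩ := nf e
      obtain ⟨s', eij⟩ := (s i j hij).con h hx
      refine phaseB (hd i j hij) subset_union_left subset_union_left (QQ i j hij) (hI i) (hI j)
        (con_RK h e) s' n _ (PP_er' (gG G hG i j) eij)
        ((v i).con h (by omega) Subset.rfl) ((v j).con h (by omega) Subset.rfl)
        (fun m hm => ⟨hN m (by omega) i, hN m (by omega) j⟩)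
        (fun t ht => k _ (by rintro rfl; exact eij (ev_PP ht)) ?_)
      rcases mem_union.1 ht with a | a
      · exact hp i t a
      · exact hp j t a

end Pool.Agent.H.MP_17585b_co
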