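import Pool.Agent.H.MP_17585b_co.B

set_option autoImplicit false

namespace Pool.Agent.H.MP_17585b_co

open Finset Pool.Agent.H.MP_76f918_co Pool.Agent.H.MP_e89f49_co

def TT (X : Finset ℕ) : Finset ℕ := X.image (· / 2)
@[irreducible] def II (i : ℕ) : Finset ℕ := Ico (10000 * i) (10000 * i + 10000)
@[irreducible] def UU (n : ℕ) : Finset ℕ := range n
def nn (i : ℕ) (X : Finset ℕ) : ℕ := (TT X ∩ II i).card
def gg (i : ℕ) (X : Finset ℕ) : ℕ := min (nn i X) 9999
def GG (X : Finset ℕ) : ℕ := gg 0 X + gg 1 X + gg 2 X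
def Full (X : Finset ℕ) : Prop := nn 0 X = 10000 ∨ nn 1 X = 10000 ∨ nn 2 X = 10000
instance (X : Finset ℕ) : Decidable (Full X) := by unfold Full; infer_instance
def rN (X : Finset ℕ) : ℕ := GG X + if 60002 ∈ X ∨ Full X then 1 else 0
def r1 (X : Finset ℕ) : ℕ := GG X + if Full X then 1 else 0
def r2 (X : Finset ℕ) : ℕ := min (r1 X + if 60000 ∈ X then 1 else 0) 29998
def CC (X : Finset ℕ) : Prop :=
  r2 X = 29998 ∨ (60000 ∈ X ∧ Full X ∧ (gg 0 X = 9999 ∨ gg 1 X = 9999))
instance (X : Finset ℕ) : Decidable (CC X) := by unfold CC; infer_instance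
def rM (X : Finset ℕ) : ℕ := r2 X + if 60001 ∈ X ∧ ¬ CC X then 1 else 0

lemma mem_II {i t : ℕ} : t ∈ II i ↔ t / 10000 = i := by unfold II; rw [mem_Ico]; omega
lemma card_II (i : ℕ) : (II i).card = 10000 := by unfold II; rw [Nat.card_Ico]; omega
lemma mem_UU {n t : ℕ} : t ∈ UU n ↔ t < n := by unfold UU; exact mem_range
lemma mem_TT {X : Finset ℕ} {i : ℕ} : i ∈ TT X ↔ 2 * i ∈ X ∨ 2 * i + 1 ∈ X := by
  simp only [TT, mem_image]
  constructor
  · rintro ⟨a, h1, rfl⟩
    rcases Nat.mod_two_eq_zero_or_one a with h | h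
    · left; rwa [show 2 * (a / 2) = a by omega]
    · right; rwa [show 2 * (a / 2) + 1 = a by omega]
  · rintro (a | a)
    · exact ⟨_, a, by omega⟩
    · exact ⟨_, a, by omega⟩
lemma TT_PP (L : Finset ℕ) : TT (PP L) = L := by
  ext i; simp only [mem_TT, mem_PP, show 2 * i / 2 = i by omega, show (2 * i + 1) / 2 = i by omega,
    or_self]
lemma card_PP (L : Finset ℕ) : (PP L).card = 2 * L.card := by
  induction L using Finset.induction_on with
  | empty => simp [PP]
  | insert a L ha ih =>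
    have : PP (insert a L) = insert (2 * a) (insert (2 * a + 1) (PP L)) := by
      simp [PP, biUnion_insert]
    have h1 : 2 * a + 1 ∉ PP L := by rwa [mem_PP, show (2 * a + 1) / 2 = a by omega]
    have h2 : 2 * a ∉ PP L := by rwa [mem_PP, show (2 * a) / 2 = a by omega]
    rw [this, card_insert_of_notMem (by simp [h2]), card_insert_of_notMem h1,
      card_insert_of_notMem ha]; omega

lemma nn_mono (i : ℕ) {X Y : Finset ℕ} (h : X ⊆ Y) : nn i X ≤ nn i Y :=
  card_le_card (inter_subset_inter_right (image_subset_image h))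
lemma nn_le (i : ℕ) (X : Finset ℕ) : nn i X ≤ 10000 :=
  (card_le_card inter_subset_right).trans (card_II i).le
lemma nn_sub (i : ℕ) (X Y : Finset ℕ) : nn i (X ∪ Y) + nn i (X ∩ Y) ≤ nn i X + nn i Y := by
  have h1 := card_union_add_card_inter (TT X ∩ II i) (TT Y ∩ II i)
  have h2 := card_le_card (show TT (X ∩ Y) ∩ II i ⊆ (TT X ∩ II i) ∩ (TT Y ∩ II i) by
    intro t; simp only [mem_inter, mem_TT]; tauto)
  have h3 : TT (X ∪ Y) ∩ II i = TT X ∩ II i ∪ TT Y ∩ II i := by
    ext t; simp only [mem_inter, mem_union, mem_TT]; tauto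
  unfold nn; rw [h3]; omega
lemma nn_ins {i z : ℕ} (hz : z / 2 / 10000 ≠ i) (X : Finset ℕ) : nn i (insert z X) = nn i X := by
  unfold nn TT; rw [image_insert, insert_inter_of_notMem (by rwa [mem_II])]
lemma nn_empty (i : ℕ) : nn i ∅ = 0 := by simp [nn, TT]
lemma nn_one (i p : ℕ) : nn i {p} = if p / 2 / 10000 = i then 1 else 0 := by
  split_ifs with h
  · unfold nn TT; rw [image_singleton, singleton_inter_of_mem (mem_II.2 h), card_singleton]
  · rw [← insert_empty_eq, nn_ins h, nn_empty]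
lemma gg_ins {i z : ℕ} (hz : 60000 ≤ z) (hi : i < 3) (X : Finset ℕ) :
    gg i (insert z X) = gg i X := by unfold gg; rw [nn_ins (by omega)]
lemma GG_ins {z : ℕ} (hz : 60000 ≤ z) (X : Finset ℕ) : GG (insert z X) = GG X := by
  unfold GG; rw [gg_ins hz (by omega), gg_ins hz (by omega), gg_ins hz (by omega)]
lemma Full_ins {z : ℕ} (hz : 60000 ≤ z) (X : Finset ℕ) : Full (insert z X) ↔ Full X := by
  unfold Full; rw [nn_ins (by omega), nn_ins (by omega), nn_ins (by omega)]
lemma gg_le (i : ℕ) (X : Finset ℕ) : gg i X ≤ 9999 := min_le_right _ _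
lemma gg_mono (i : ℕ) {X Y : Finset ℕ} (h : X ⊆ Y) : gg i X ≤ gg i Y := by
  have := nn_mono i h; unfold gg; omega
lemma gg_sub (i : ℕ) (X Y : Finset ℕ) : gg i (X ∪ Y) + gg i (X ∩ Y) ≤ gg i X + gg i Y ∧
    (nn i (X ∪ Y) = 10000 → nn i X ≠ 10000 → nn i Y ≠ 10000 →
      gg i (X ∪ Y) + gg i (X ∩ Y) < gg i X + gg i Y) := by
  have := nn_sub i X Y
  have := nn_le i X
  have := nn_le i Y
  have := nn_mono i (inter_subset_left (s₁ := X) (s₂ := Y))
  have := nn_mono i (inter_subset_right (s₁ := X) (s₂ := Y))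
  unfold gg; omega
lemma Full.mono {X Y : Finset ℕ} (h : X ⊆ Y) (a : Full X) : Full Y := by
  have := nn_mono 0 h; have := nn_mono 1 h; have := nn_mono 2 h
  have := nn_le 0 Y; have := nn_le 1 Y; have := nn_le 2 Y
  unfold Full at *; omega
lemma Full.gg {X : Finset ℕ} (a : Full X) : gg 0 X = 9999 ∨ gg 1 X = 9999 ∨ gg 2 X = 9999 := by
  unfold Full at a; unfold MP_17585b_co.gg; omega
lemma not_Full_empty : ¬ Full ∅ := by simp [Full, nn_empty]
lemma GG_empty : GG ∅ = 0 := by simp [GG, gg, nn_empty]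

lemma rN_RK : RK rN := by
  refine ⟨by simp [rN, GG_empty, not_Full_empty], fun X Y h => ?_, fun X Y => ?_, fun p => ?_⟩
  · have := gg_mono 0 h; have := gg_mono 1 h; have := gg_mono 2 h
    have := Full.mono h
    have := @h 60002
    unfold rN GG; split_ifs <;> first | omega | tauto
  · have h2 : GG (X ∪ Y) + GG (X ∩ Y) ≤ GG X + GG Y := by
      have := (gg_sub 0 X Y).1; have := (gg_sub 1 X Y).1; have := (gg_sub 2 X Y).1
      unfold GG; omega
    have h3 : Full (X ∪ Y) → ¬ Full X → ¬ Full Y → GG (X ∪ Y) + GG (X ∩ Y) < GG X + GG Y := by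
      have := gg_sub 0 X Y; have := gg_sub 1 X Y; have := gg_sub 2 X Y
      unfold GG Full; omega
    have h4 := Full.mono (inter_subset_left (s₁ := X) (s₂ := Y))
    have h5 := Full.mono (inter_subset_right (s₁ := X) (s₂ := Y))
    unfold rN
    by_cases a : 60002 ∈ X <;> by_cases b : 60002 ∈ Y <;> by_cases c : Full X <;>
      by_cases d : Full Y <;> by_cases f : Full (X ∪ Y) <;> by_cases g : Full (X ∩ Y) <;>
      simp [a, b, c, d, f, g] at * <;> omega
  · have s : nn 0 {p} + nn 1 {p} + nn 2 {p} ≤ 1 ∧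
        (60002 = p → nn 0 {p} + nn 1 {p} + nn 2 {p} = 0) := by
      simp only [nn_one]; split_ifs <;> omega
    unfold rN GG gg Full
    simp only [mem_singleton]
    split_ifs <;> omega

lemma r1_ins {z : ℕ} (hz : 60000 ≤ z) (X : Finset ℕ) : r1 (insert z X) = r1 X := by
  simp only [r1, GG_ins hz, Full_ins hz]

lemma r1_eq (X : Finset ℕ) : r1 X = rN (X.erase 60002) := by
  by_cases h : 60002 ∈ X
  · conv_lhs => rw [← insert_erase h, r1_ins (by omega)]
    simp [r1, rN]
  · simp [r1, rN, h]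

lemma r1_RK : RK r1 := by
  refine ⟨by simp [r1_eq, rN_RK.emp], fun X Y h => ?_, fun X Y => ?_, fun p => ?_⟩ <;>
    simp only [r1_eq]
  · exact rN_RK.mono _ _ (erase_subset_erase _ h)
  · rw [erase_union_distrib, show (X ∩ Y).erase 60002 = X.erase 60002 ∩ Y.erase 60002 by
      ext; simp only [mem_erase, mem_inter]; tauto]
    exact rN_RK.sub _ _
  · exact (rN_RK.mono _ _ (erase_subset _ _)).trans (rN_RK.one p)

lemma r1_le (X : Finset ℕ) : r1 X ≤ 29998 := by
  have := gg_le 0 X; have := gg_le 1 X; have := gg_le 2 X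
  unfold r1 GG; split_ifs <;> omega
lemma r2_ins {z : ℕ} (hz : 60001 ≤ z) (X : Finset ℕ) : r2 (insert z X) = r2 X := by
  have : 60000 ≠ z := by omega
  simp [r2, r1_ins (show 60000 ≤ z by omega), this]
lemma r2_le (X : Finset ℕ) : r2 X ≤ 29998 := min_le_right _ _

lemma r2_RK : RK r2 := by
  refine ⟨by simp [r2, r1_RK.emp], fun X Y h => ?_, fun X Y => ?_, fun p => ?_⟩
  · have := r1_RK.mono _ _ h
    have := @h 60000
    unfold r2; split_ifs <;> first | omega | tauto
  · have := r1_RK.sub X Y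
    have := r1_RK.mono _ _ (inter_subset_left (s₁ := X) (s₂ := Y))
    have := r1_RK.mono _ _ (inter_subset_right (s₁ := X) (s₂ := Y))
    unfold r2
    by_cases a : 60000 ∈ X <;> by_cases b : 60000 ∈ Y <;> simp only [mem_union, mem_inter, a, b,
      or_self, and_self, or_true, true_or, and_false, false_and, if_true, if_false] <;> omega
  · by_cases h : p = 60000
    · rw [h, r2, ← insert_empty_eq, r1_ins le_rfl, r1_RK.emp]; simp
    · have h' : ¬ 60000 = p := fun a => h a.symm
      have := r1_RK.one p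
      simp [r2, h', this]

lemma CC_cut : Cut r2 CC := by
  have eq : ∀ X Y, X ⊆ Y → r2 Y ≤ r2 X → CC Y → CC X := by
    intro X Y h e c
    have := r2_le X
    rcases c with c | ⟨c1, c2, c3⟩
    · left; omega
    by_cases a : r2 X = 29998
    · exact Or.inl a
    have := gg_mono 0 h; have := gg_mono 1 h; have := gg_mono 2 h
    have := gg_le 0 X; have := gg_le 1 X
    unfold r2 r1 GG at e a
    rw [if_pos c1, if_pos c2] at e
    refine Or.inr ⟨?_, ?_, ?_⟩
    · by_contra b; rw [if_neg b] at e a; split_ifs at e a <;> omega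
    · by_contra b; rw [if_neg b] at e a; split_ifs at e a <;> omega
    · split_ifs at e a <;> omega
  refine ⟨fun X Y h c => ?_, eq, fun X Y a b hm => ?_⟩
  · have := r2_RK.mono _ _ h
    have := r2_le Y
    have := gg_mono 0 h; have := gg_mono 1 h; have := gg_le 0 Y; have := gg_le 1 Y
    rcases c with c | ⟨c1, c2, c3⟩
    · left; omega
    · exact Or.inr ⟨h c1, c2.mono h, by omega⟩
  · have := r2_le (X ∪ Y)
    by_cases x4 : r2 X = 29998
    · exact eq _ _ inter_subset_right (by omega) b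
    by_cases y4 : r2 Y = 29998
    · exact eq _ _ inter_subset_left (by omega) a
    obtain ⟨a1, a2, a3⟩ := a.resolve_left x4
    obtain ⟨b1, b2, b3⟩ := b.resolve_left y4
    have := (gg_sub 0 X Y).1; have := (gg_sub 1 X Y).1; have := (gg_sub 2 X Y).1
    have := gg_le 0 (X ∪ Y); have := gg_le 1 (X ∪ Y); have := gg_le 2 (X ∪ Y)
    have := gg_le 0 (X ∩ Y); have := gg_le 1 (X ∩ Y)
    have := gg_mono 0 (subset_union_left (s₁ := X) (s₂ := Y))
    have := gg_mono 1 (subset_union_left (s₁ := X) (s₂ := Y))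
    have := gg_mono 0 (subset_union_right (s₁ := X) (s₂ := Y))
    have := gg_mono 1 (subset_union_right (s₁ := X) (s₂ := Y))
    have := gg_mono 2 (inter_subset_union (s := X) (t := Y))
    have i1 : 60000 ∈ X ∩ Y := mem_inter.2 ⟨a1, b1⟩
    unfold r2 r1 GG at hm x4 y4
    rw [if_pos a1, if_pos a2] at hm x4
    rw [if_pos b1, if_pos b2] at hm y4
    rw [if_pos i1, if_pos (mem_union_left _ a1), if_pos (a2.mono subset_union_left)] at hm
    have f : Full (X ∩ Y) := by by_contra f; rw [if_neg f] at hm; omega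
    rw [if_pos f] at hm
    have := f.gg
    exact Or.inr ⟨i1, f, by omega⟩

lemma rM_RK : RK rM := by
  have h := r2_RK
  have hC := CC_cut
  refine ⟨by simp [rM, h.emp], fun X Y hXY => ?_, fun X Y => ?_, fun p => ?_⟩
  · unfold rM
    have h2 := h.mono _ _ hXY
    have h3 := hC.eq _ _ hXY
    have h4 := @hXY 60001
    split_ifs <;> first | omega | skip
    rename_i a b
    by_contra hh
    exact a.2 (h3 (by omega) (by by_contra c; exact b ⟨h4 a.1, c⟩))
  · unfold rM
    have h1 := h.sub X Y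
    have h2 := hC.md X Y
    have h3 := hC.up X _ (subset_union_left (s₂ := Y))
    have h4 := hC.up Y _ (subset_union_right (s₁ := X))
    by_cases a : 60001 ∈ X <;> by_cases b : 60001 ∈ Y <;> by_cases c : CC X <;>
      by_cases d : CC Y <;> by_cases e : CC (X ∪ Y) <;>
      by_cases f : CC (X ∩ Y) <;> simp [a, b, c, d, e, f] at * <;> omega
  · by_cases c : p = 60001
    · rw [c, rM, ← insert_empty_eq, r2_ins le_rfl, h.emp]; split_ifs <;> omega
    · have h' : ¬ 60001 = p := fun a => c a.symm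
      simp [rM, h', h.one p]

lemma rM_le (X : Finset ℕ) : rM X ≤ 29998 := by
  have := r2_le X
  unfold rM
  split_ifs with a
  · have : r2 X ≠ 29998 := fun e => a.2 (Or.inl e)
    omega
  · omega

lemma rM_r1 {X : Finset ℕ} (h : X ⊆ UU 60000) : rM X = r1 X := by
  have a : 60000 ∉ X := fun a => by simpa [mem_UU] using h a
  have b : 60001 ∉ X := fun a => by simpa [mem_UU] using h a
  simp [rM, r2, a, b, r1_le]

lemma rM_free {X : Finset ℕ} (h : X ⊆ UU 60000) {δ : ℕ} (hδ : δ = 60000 ∨ δ = 60001) :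
    rM (insert δ X) = min (r1 X + 1) 29998 := by
  have a : 60000 ∉ X := fun a => by simpa [mem_UU] using h a
  have b : 60001 ∉ X := fun a => by simpa [mem_UU] using h a
  rcases hδ with rfl | rfl
  · simp [rM, r2, b, r1_ins]
  · have e : r2 (insert 60001 X) = r1 X := by rw [r2_ins le_rfl]; simp [r2, a, r1_le]
    have := r1_le X
    unfold rM
    split_ifs with c
    · have : r2 (insert 60001 X) ≠ 29998 := fun e => c.2 (Or.inl e)
      omega
    · have c' : CC (insert 60001 X) := by by_contra d; exact c ⟨by simp, d⟩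
      rcases c' with d | d
      · omega
      · simp [a] at d

lemma rM_dd (X : Finset ℕ) (h : r1 X < 29990) : rM (insert 60001 (insert 60000 X)) =
    r1 X + 1 + if Full X ∧ (gg 0 X = 9999 ∨ gg 1 X = 9999) then 0 else 1 := by
  have e : r2 (insert 60001 (insert 60000 X)) = r1 X + 1 := by
    rw [r2_ins le_rfl, r2, r1_ins le_rfl, if_pos (by simp)]; omega
  have e2 : CC (insert 60001 (insert 60000 X)) ↔ Full X ∧ (gg 0 X = 9999 ∨ gg 1 X = 9999) := by
    unfold CC
    rw [e, Full_ins (by omega), Full_ins (by omega), gg_ins (by omega) (by omega),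
      gg_ins (by omega) (by omega), gg_ins (by omega) (by omega), gg_ins (by omega) (by omega)]
    have : ¬ r1 X + 1 = 29998 := by omega
    simp [this]
  unfold rM
  rw [e]
  by_cases c : Full X ∧ (gg 0 X = 9999 ∨ gg 1 X = 9999)
  · rw [if_pos c, if_neg (fun a => a.2 (e2.2 c))]
  · rw [if_neg c, if_pos ⟨by simp, fun a => c (e2.1 a)⟩]

end Pool.Agent.H.MP_17585b_co
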