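import Mathlib

set_option autoImplicit false

namespace Pool.Agent.H.MP_17585b_co

/-- matroid rank function: zero on the empty set, monotone, submodular, at most 1 on points.
A matroid is a finite ground set `E` of natural numbers with such an `r`, read on subsets of `E`. -/
def IsMat (r : Finset ℕ → ℕ) : Prop :=
  r ∅ = 0 ∧ (∀ X Y, X ⊆ Y → r X ≤ r Y) ∧ (∀ X Y, r (X ∪ Y) + r (X ∩ Y) ≤ r X + r Y) ∧
    ∀ s, r {s} ≤ 1

/-- circuit: a minimal dependent set -/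
def Circ (r : Finset ℕ → ℕ) (K : Finset ℕ) : Prop :=
  r K < K.card ∧ ∀ K' ⊂ K, r K' = K'.card

/-- any two elements of `C` lie in a common circuit of the matroid on `E` -/
def Lnk (E : Finset ℕ) (r : Finset ℕ → ℕ) (C : Finset ℕ) : Prop :=
  C ⊆ E ∧ ∀ x ∈ C, ∀ y ∈ C, x ≠ y → ∃ K ⊆ E, Circ r K ∧ x ∈ K ∧ y ∈ K

/-- component: an inclusion-maximal such set -/
def Comp (E : Finset ℕ) (r : Finset ℕ → ℕ) (C : Finset ℕ) : Prop := Maximal (Lnk E r) C

/-- rank function after contracting `e` -/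
def con (r : Finset ℕ → ℕ) (e : ℕ) (X : Finset ℕ) : ℕ := r (insert e X) - r {e}

/-- cd-transformed: delete or contract an element -/
def TCD (E : Finset ℕ) (r : Finset ℕ → ℕ) (E' : Finset ℕ) (r' : Finset ℕ → ℕ) : Prop :=
  ∃ e ∈ E, E' = E.erase e ∧ (r' = r ∨ r' = con r e)

/-- c*d-transformed: delete an element, or add a new non-loop element `f` and contract it -/
def TCsD (E : Finset ℕ) (r : Finset ℕ → ℕ) (E' : Finset ℕ) (r' : Finset ℕ → ℕ) : Prop :=
  (∃ e ∈ E, E' = E.erase e ∧ r' = r) ∨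
  (E' = E ∧ ∃ f ∉ E, ∃ n, IsMat n ∧ (∀ X ⊆ E, n X = r X) ∧ n {f} ≠ 0 ∧ r' = con n f)

/-- `Dep T k E r`: the depth for the transformation `T` is at most `k` -/
def Dep (T : Finset ℕ → (Finset ℕ → ℕ) → Finset ℕ → (Finset ℕ → ℕ) → Prop) :
    ℕ → Finset ℕ → (Finset ℕ → ℕ) → Prop
  | 0, _, _ => False
  | k + 1, E, r => ∀ C, Comp E r C → C.card = 1 ∨ ∃ E' r', T C r E' r' ∧ Dep T k E' r'

end Pool.Agent.H.MP_17585b_co
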