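import Pool.Agent.H.MP_17585b_co.C

set_option autoImplicit false
set_option maxRecDepth 2000

namespace Pool.Agent.H.MP_17585b_co

open Finset Pool.Agent.H.MP_76f918_co Pool.Agent.H.MP_e89f49_co

lemma nn_sum {X : Finset ℕ} (h : X ⊆ UU 60000) : nn 0 X + nn 1 X + nn 2 X = (TT X).card := by
  have h1 := card_union_of_disjoint (s := TT X ∩ II 0) (t := TT X ∩ II 1) (by
    rw [disjoint_left]; intro t; simp only [mem_inter, mem_II]; omega)
  have h2 := card_union_of_disjoint (s := TT X ∩ II 0 ∪ TT X ∩ II 1) (t := TT X ∩ II 2) (by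
    rw [disjoint_left]; intro t; simp only [mem_inter, mem_II, mem_union]; omega)
  have h3 : TT X ∩ II 0 ∪ TT X ∩ II 1 ∪ TT X ∩ II 2 = TT X := by
    ext t; simp only [mem_inter, mem_II, mem_union]
    refine ⟨by tauto, fun a => ?_⟩
    have : t < 30000 := by
      rcases mem_TT.1 a with b | b <;> have := mem_UU.1 (h b) <;> omega
    simp only [a, true_and]; omega
  unfold nn; rw [h3] at h2; omega

lemma nn_PP (i : ℕ) (L : Finset ℕ) : nn i (PP L) = (L ∩ II i).card := by rw [nn, TT_PP]
lemma nn_II (i j : ℕ) : nn i (PP (II j)) = if j = i then 10000 else 0 := by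
  rw [nn_PP]
  split_ifs with h
  · rw [h, inter_self, card_II]
  · rw [card_eq_zero]; ext t; simp only [mem_inter, mem_II, notMem_empty, iff_false]; omega

lemma r1_top {Y : Finset ℕ} (a : 10000 ≤ nn 0 Y) (b : 10000 ≤ nn 1 Y) (c : 10000 ≤ nn 2 Y) :
    29998 ≤ r1 Y := by
  have k : ∀ i, 10000 ≤ nn i Y → gg i Y = 9999 := fun i h => by unfold gg; omega
  rw [r1, if_pos (show Full Y from Or.inl (le_antisymm (nn_le 0 Y) a)), GG, k 0 a, k 1 b, k 2 c]

lemma PP_UU {L : Finset ℕ} (h : ∀ t ∈ L, t < 30000) : PP L ⊆ UU 60000 := fun x hx => by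
  have := h _ (mem_PP.1 hx); rw [mem_UU]; omega
lemma UU_sub : UU 60000 ⊆ UU 60002 := fun x hx => by rw [mem_UU] at *; omega

section low
variable {ρ : Finset ℕ → ℕ} (h : RK ρ) (hρ : ∀ X ⊆ UU 60002, ρ X = rM X)
include hρ

lemma rho_r1 {X : Finset ℕ} (hX : X ⊆ UU 60000) : ρ X = r1 X := by
  rw [hρ _ (hX.trans UU_sub), rM_r1 hX]

lemma ci_base (i j : ℕ) (hi : i < 3) (hj : j < 3) (hij : i ≠ j) : Ci ρ (II i ∪ II j) := by
  have hc : (II i ∪ II j).card = 20000 := by
    rw [card_union_of_disjoint (by rw [disjoint_left]; intro t; simp only [mem_II]; omega),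
      card_II, card_II]
  refine ⟨fun L hL => ?_, fun y hy => ?_⟩
  · have hL' : PP L ⊆ UU 60000 := PP_UU fun t ht => by
      have := hL ht; simp only [mem_union, mem_II] at this; omega
    have h1 := nn_sum hL'
    have h2 : nn (3 - i - j) (PP L) = 0 := by
      rw [nn_PP, card_eq_zero]; ext t
      have := @hL t
      simp only [mem_inter, mem_II, notMem_empty, mem_union, iff_false, not_and] at *
      intro a; have := this a; omega
    have := nn_le 0 (PP L); have := nn_le 1 (PP L); have := nn_le 2 (PP L)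
    rw [TT_PP] at h1
    rw [rho_r1 hρ hL', hc]
    unfold r1 GG gg Full
    interval_cases i <;> interval_cases j <;> simp only [Nat.reduceSub] at h2 <;>
      split_ifs <;> omega
  · have hy' : y < 60000 := by
      simp only [mem_PP, mem_union, mem_II] at hy; omega
    rw [rho_r1 hρ (by simpa [mem_UU] using hy')]
    have s : nn 0 {y} + nn 1 {y} + nn 2 {y} = 1 := by
      simp only [nn_one]; split_ifs <;> omega
    unfold r1 GG gg Full
    split_ifs <;> omega

lemma rho_II (i : ℕ) (hi : i < 3) : ρ (PP (II i)) = 10000 := by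
  have := (ci_base hρ i ((i + 1) % 3) hi (by omega) (by omega)).c1 (II i) subset_union_left
  rw [this, card_II, card_union_of_disjoint
    (by rw [disjoint_left]; intro t; simp only [mem_II]; omega), card_II, card_II]; rfl

lemma rho_dd {X : Finset ℕ} (hX : X ⊆ UU 60000) (h : r1 X < 29990) :
    ρ (insert 60001 (insert 60000 X)) =
    r1 X + 1 + if Full X ∧ (gg 0 X = 9999 ∨ gg 1 X = 9999) then 0 else 1 := by
  rw [hρ _ (insert_subset (by simp [mem_UU]) (insert_subset (by simp [mem_UU])
    (hX.trans UU_sub))), rM_dd X h]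

include h

lemma nf_base (x : ℕ) : ∃ i j : Fin 3, i ≠ j ∧ (ρ {x} = 0 ∨ ¬ Cl ρ (PP (II i ∪ II j)) x) := by
  by_contra hh
  push Not at hh
  have c01 : Cl ρ (PP (II 0 ∪ II 1)) x := (hh 0 1 (by decide)).2
  have c02 : Cl ρ (PP (II 0 ∪ II 2)) x := (hh 0 2 (by decide)).2
  have c12 : Cl ρ (PP (II 1 ∪ II 2)) x := (hh 1 2 (by decide)).2
  have x0 := (hh 0 1 (by decide)).1
  have two : ∀ i j, i < 3 → j < 3 → i ≠ j → ρ (PP (II i ∪ II j)) = 19999 := fun i j a b c => by
    rw [(ci_base hρ i j a b c).c1 _ Subset.rfl, card_union_of_disjoint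
      (by rw [disjoint_left]; intro t; simp only [mem_II]; omega), card_II, card_II]; rfl
  have sub : ∀ i < 3, PP (II i) ⊆ UU 60000 := fun i hi => PP_UU fun t ht => by
    rw [mem_II] at ht; omega
  have all : ∀ L, II 0 ⊆ L → II 1 ⊆ L → II 2 ⊆ L → 29998 ≤ ρ (PP L) := fun L a b c => by
    have s : PP (II 0) ∪ PP (II 1) ∪ PP (II 2) ⊆ UU 60000 :=
      union_subset (union_subset (sub 0 (by omega)) (sub 1 (by omega))) (sub 2 (by omega))
    refine le_trans ?_ (h.mono _ _
      (union_subset (union_subset (PP_mono a) (PP_mono b)) (PP_mono c)))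
    rw [rho_r1 hρ s]
    have a0 := nn_mono 0 (show PP (II 0) ⊆ PP (II 0) ∪ PP (II 1) ∪ PP (II 2) from
      subset_union_left.trans subset_union_left)
    have a1 := nn_mono 1 (show PP (II 1) ⊆ PP (II 0) ∪ PP (II 1) ∪ PP (II 2) from
      subset_union_right.trans subset_union_left)
    have a2 := nn_mono 2 (show PP (II 2) ⊆ PP (II 0) ∪ PP (II 1) ∪ PP (II 2) from subset_union_right)
    rw [nn_II, if_pos rfl] at a0 a1 a2
    exact r1_top a0 a1 a2
  have one : ∀ i < 3, ∀ K L, K ∩ L = II i → ρ (PP K) = 19999 → ρ (PP L) = 19999 →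
      II 0 ⊆ K ∪ L → II 1 ⊆ K ∪ L → II 2 ⊆ K ∪ L → Cl ρ (PP K) x → Cl ρ (PP L) x →
      Cl ρ (PP (II i)) x := fun i hi K L e a b c d f k l => by
    have := meet h k l (by
      have := all _ c d f
      rw [← PP_union, ← PP_inter, e, rho_II hρ i hi]; omega)
    rwa [← PP_inter, e] at this
  have c0 := one 0 (by omega) _ _ (by ext; simp only [mem_inter, mem_union, mem_II]; omega)
    (two 0 1 (by omega) (by omega) (by omega)) (two 0 2 (by omega) (by omega) (by omega))
    (by intro; simp only [mem_union]; tauto) (by intro; simp only [mem_union]; tauto)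
    (by intro; simp only [mem_union]; tauto) c01 c02
  have c1 := one 1 (by omega) _ _ (by ext; simp only [mem_inter, mem_union, mem_II]; omega)
    (two 0 1 (by omega) (by omega) (by omega)) (two 1 2 (by omega) (by omega) (by omega))
    (by intro; simp only [mem_union]; tauto) (by intro; simp only [mem_union]; tauto)
    (by intro; simp only [mem_union]; tauto) c01 c12
  have c2 := one 2 (by omega) _ _ (by ext; simp only [mem_inter, mem_union, mem_II]; omega)
    (two 0 2 (by omega) (by omega) (by omega)) (two 1 2 (by omega) (by omega) (by omega))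
    (by intro; simp only [mem_union]; tauto) (by intro; simp only [mem_union]; tauto)
    (by intro; simp only [mem_union]; tauto) c02 c12
  have v : ∀ i < 3, r1 (PP (II i)) = 10000 := fun i hi => by
    rw [← rho_r1 hρ (sub i hi), rho_II hρ i hi]
  have v01 : r1 (PP (II 0 ∪ II 1)) = 19999 := by
    rw [← rho_r1 hρ (by rw [PP_union]; exact union_subset (sub 0 (by omega)) (sub 1 (by omega))),
      two 0 1 (by omega) (by omega) (by omega)]
  have e0 := rho_dd hρ (sub 0 (by omega)) (by rw [v 0 (by omega)]; omega)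
  have e1 := rho_dd hρ (sub 1 (by omega)) (by rw [v 1 (by omega)]; omega)
  have e2 := rho_dd hρ (sub 2 (by omega)) (by rw [v 2 (by omega)]; omega)
  have e3 := rho_dd hρ (empty_subset _) (by rw [r1_RK.emp]; omega)
  have e4 := h.mono (insert 60000 (PP (II 0 ∪ II 1)))
    (insert 60001 (insert 60000 (PP (II 0))) ∪ insert 60001 (insert 60000 (PP (II 1)))) (by
      intro z; simp only [PP_union, mem_union, mem_insert]; tauto)
  rw [hρ _ (insert_subset (by simp [mem_UU]) (by
      rw [PP_union]; exact (union_subset (sub 0 (by omega)) (sub 1 (by omega))).trans UU_sub)),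
    rM_free (by rw [PP_union]; exact union_subset (sub 0 (by omega)) (sub 1 (by omega)))
      (Or.inl rfl), v01] at e4
  rw [if_pos (by simp [Full, gg, nn_II]), v 0 (by omega)] at e0
  rw [if_pos (by simp [Full, gg, nn_II]), v 1 (by omega)] at e1
  rw [if_neg (by simp [Full, gg, nn_II]), v 2 (by omega)] at e2
  rw [if_neg (by simp [not_Full_empty]), r1_RK.emp] at e3
  have i1 : insert 60001 (insert 60000 (PP (II 0))) ∩ insert 60001 (insert 60000 (PP (II 1))) =
      insert 60001 (insert 60000 ∅) := by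
    ext z; simp only [mem_inter, mem_insert, mem_PP, mem_II, notMem_empty, or_false]; omega
  have m1 := meet h (h.Cl_mono ((subset_insert 60000 _).trans (subset_insert 60001 _)) c0)
    (h.Cl_mono ((subset_insert 60000 _).trans (subset_insert 60001 _)) c1) (by rw [i1]; omega)
  rw [i1] at m1
  have i2 : insert 60001 (insert 60000 ∅) ∩ PP (II 2) = ∅ := by
    ext z; simp only [mem_inter, mem_insert, mem_PP, mem_II, notMem_empty, or_false, iff_false]
    omega
  have m2 := meet h m1 c2 (by
    rw [i2, insert_union, insert_union, empty_union, rho_II hρ 2 (by omega), h.emp]; omega)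
  rw [i2] at m2
  exact x0 (by simpa [Cl, h.emp] using m2)

lemma rob_base {G : Finset ℕ} (hG : UU 60002 ⊆ G) (i : ℕ) (hi : i < 3) :
    Rob ρ G (II i) (PP (II i) ∪ {60000, 60001}) 5 2 3 := by
  intro D hD hQ J hJ
  have hJ' : ∀ t ∈ J, t / 10000 = i ∧ 2 * t ∉ D ∧ 2 * t + 1 ∉ D := fun t ht => by
    have := hJ ht
    simp only [mem_sdiff, mem_II, mem_image, not_exists, not_and] at this
    exact ⟨this.1, fun a => this.2 _ a (by omega), fun a => this.2 _ a (by omega)⟩
  set U := UU 60000 \ D with hU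
  have sU : U ⊆ UU 60000 := sdiff_subset
  have dead : ∀ k < 3, 20000 ≤ 2 * nn k U + (D ∩ PP (II k)).card := by
    intro k hk
    have h1 := card_sdiff_add_card_inter (II k) (TT U)
    have h2 := card_le_card (show PP (II k \ TT U) ⊆ D ∩ PP (II k) by
      intro z hz
      simp only [mem_PP, mem_sdiff, mem_II, mem_TT, mem_inter, hU, mem_UU, not_or, not_and,
        not_not] at hz ⊢
      refine ⟨?_, hz.1⟩
      rcases Nat.mod_two_eq_zero_or_one z with c | c
      · have := hz.2.1 (by omega); rwa [show 2 * (z / 2) = z by omega] at this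
      · have := hz.2.2 (by omega); rwa [show 2 * (z / 2) + 1 = z by omega] at this)
    rw [card_PP] at h2
    rw [card_II, inter_comm] at h1
    unfold nn; omega
  have tot : (D ∩ PP (II 0)).card + (D ∩ PP (II 1)).card + (D ∩ PP (II 2)).card +
      (D ∩ {60000, 60001}).card ≤ 5 := by
    rw [← card_union_of_disjoint, ← card_union_of_disjoint, ← card_union_of_disjoint]
    · exact (card_le_card (by intro z; simp only [mem_union, mem_inter]; tauto)).trans hD
    all_goals
      rw [disjoint_left]; intro z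
      simp only [mem_union, mem_inter, mem_PP, mem_II, mem_insert, mem_singleton]; omega
  have hQ' : (D ∩ PP (II i)).card + (D ∩ {60000, 60001}).card ≤ 3 := by
    rw [← card_union_of_disjoint, ← inter_union_distrib_left]
    · omega
    · rw [disjoint_left]; intro z
      simp only [mem_inter, mem_PP, mem_II, mem_insert, mem_singleton]; omega
  have d0 := dead 0 (by omega)
  have d1 := dead 1 (by omega)
  have d2 := dead 2 (by omega)
  have l0 := nn_le 0 U
  have l1 := nn_le 1 U
  have l2 := nn_le 2 U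
  have TA : ∀ L ⊆ J, TT (U \ PP J ∪ AA L) = TT U \ J ∪ L := by
    intro L hL; ext t
    have h1 : 2 * t ∈ AA L ↔ t ∈ L := by
      simp only [AA, mem_image]; exact ⟨fun ⟨a, b, c⟩ => by rwa [← show a = t by omega],
        fun a => ⟨t, a, rfl⟩⟩
    have h2 : 2 * t + 1 ∉ AA L := by simp only [AA, mem_image]; rintro ⟨a, b, c⟩; omega
    simp only [mem_TT, mem_union, mem_sdiff, mem_PP, h1, h2, show 2 * t / 2 = t by omega,
      show (2 * t + 1) / 2 = t by omega]
    tauto
  have JT : J ⊆ TT U := fun t ht => by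
    have := hJ' t ht
    exact mem_TT.2 (Or.inl (mem_sdiff.2 ⟨mem_UU.2 (by omega), this.2.1⟩))
  have sY : ∀ L ⊆ J, U \ PP J ∪ AA L ⊆ UU 60000 := fun L hL =>
    union_subset (sdiff_subset.trans sU) (AA_PP.trans (PP_UU fun t ht => by
      have := hJ' t (hL ht); omega))
  have nJ : ∀ k, nn k (U \ PP J ∪ AA J) = nn k U := fun k => by
    rw [nn, TA J Subset.rfl, sdiff_union_of_subset JT, nn]
  have sR : U \ PP J ⊆ (UU 60002 \ D) \ PP J :=
    sdiff_subset_sdiff (sdiff_subset_sdiff UU_sub Subset.rfl) Subset.rfl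
  refine ⟨(UU 60002 \ D) \ PP J, sdiff_subset.trans (sdiff_subset_sdiff hG Subset.rfl),
    fun t ht => ?_, ?_⟩
  · have hY := sY _ (erase_subset t J)
    have ins : insert (2 * t) (U \ PP J ∪ AA (J.erase t)) = U \ PP J ∪ AA J := by
      rw [← union_insert]; congr 1
      conv_rhs => rw [← insert_erase ht]
      simp [AA]
    have nE : ∀ k, nn k (U \ PP J ∪ AA (J.erase t)) + (if k = i then 1 else 0) = nn k U := by
      intro k
      have e : TT U \ J ∪ J.erase t = (TT U).erase t := by
        ext z; have := @JT z; simp only [mem_union, mem_sdiff, mem_erase]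
        constructor
        · rintro (a | a)
          · exact ⟨by rintro rfl; exact a.2 ht, a.1⟩
          · tauto
        · tauto
      rw [nn, TA _ (erase_subset t J), e, erase_inter, nn]
      split_ifs with c
      · exact card_erase_add_one (mem_inter.2 ⟨JT ht, mem_II.2 (by have := hJ' t ht; omega)⟩)
      · rw [erase_eq_of_notMem (fun a => c (by
          have := mem_II.1 (mem_inter.1 a).2; have := hJ' t ht; omega))]; rfl
    have e0 := nE 0
    have e1 := nE 1
    have e2 := nE 2
    by_cases c : ∃ δ, (δ = 60000 ∨ δ = 60001) ∧ δ ∉ D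
    · obtain ⟨δ, a, b⟩ := c
      have s1 : insert δ (U \ PP J ∪ AA (J.erase t)) ⊆ UU 60002 :=
        insert_subset (mem_UU.2 (by omega)) (hY.trans UU_sub)
      refine h.Cl_mono (X := insert δ (U \ PP J ∪ AA (J.erase t))) (insert_subset
        (mem_union_left _ (mem_sdiff.2 ⟨mem_sdiff.2 ⟨mem_UU.2 (by omega), b⟩, fun k => ?_⟩))
        (union_subset_union_left sR)) ?_
      · have := hJ' _ (mem_PP.1 k); omega
      · unfold Cl
        rw [hρ _ s1, rM_free hY a,
          hρ _ (insert_subset (mem_UU.2 (by have := hJ' t ht; omega)) s1)]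
        refine (rM_le _).trans (le_min ?_ le_rfl)
        unfold r1 GG gg Full
        interval_cases i <;> simp only [Nat.reduceEqDiff, if_true, if_false] at e0 e1 e2 <;>
          split_ifs <;> omega
    · push Not at c
      have : (D ∩ {60000, 60001}).card = 2 := by
        rw [inter_eq_right.2 (by simp [insert_subset_iff, c])]; rfl
      refine h.Cl_mono (union_subset_union_left sR) ?_
      unfold Cl
      rw [ins, rho_r1 hρ hY, rho_r1 hρ (sY _ Subset.rfl)]
      unfold r1 GG gg Full
      have := nJ 0; have := nJ 1; have := nJ 2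
      interval_cases i <;> simp only [Nat.reduceEqDiff, if_true, if_false] at e0 e1 e2 <;>
        split_ifs <;> omega
  · have h1 := h.mono _ _ (union_subset_union_left (t := AA J) sR)
    have h2 := h.mono ((UU 60002 \ D) \ PP J) ({60000, 60001} ∪ U \ PP J) (by
      intro z; simp only [hU, mem_union, mem_sdiff, mem_UU, mem_insert, mem_singleton]
      rintro ⟨⟨a, b⟩, c⟩
      by_cases d : z < 60000
      · exact Or.inr ⟨⟨d, b⟩, c⟩
      · left; omega)
    have h3 := h.sub {60000, 60001} (U \ PP J)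
    have h4 := (h.le_card {60000, 60001}).trans card_le_two
    have h5 := nn_sum (sdiff_subset.trans sU : U \ PP J ⊆ _)
    have h6 := nn_sum sU
    have h7 := TA ∅ (empty_subset _)
    simp only [AA, image_empty, union_empty] at h7
    have h8 := card_sdiff_add_card_eq_card JT
    rw [rho_r1 hρ (sY _ Subset.rfl)] at h1
    rw [rho_r1 hρ (sdiff_subset.trans sU : U \ PP J ⊆ _)] at h3
    have h9 : r1 (U \ PP J) ≤ (TT (U \ PP J)).card := by
      unfold r1 GG gg Full; split_ifs <;> omega
    have h10 : (TT U).card ≤ r1 (U \ PP J ∪ AA J) + 2 := by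
      have := nJ 0; have := nJ 1; have := nJ 2
      unfold r1 GG gg Full; split_ifs <;> omega
    rw [h7] at h9
    omega

lemma lower {G : Finset ℕ} (hG : UU 60002 ⊆ G) : ¬ Dep TCD 7 G ρ := by
  intro d
  have sub : ∀ i : Fin 3, PP (II i) ⊆ G := fun i => (PP_UU fun t ht => by
    rw [mem_II] at ht; omega).trans (UU_sub.trans hG)
  refine phaseA (I := fun i => II i) (W := {60000, 60001}) (c := 3) (fun i j hij => ?_)
    (fun i e he => ?_) (fun i => by simp [card_II]) h
    (fun i j hij => ci_base hρ i j i.2 j.2 (fun a => hij (Fin.ext a))) (nf_base h hρ) 5 G sub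
    (fun i => rob_base h hρ hG i i.2) (fun m hm i => ?_)
    (fun i t ht => ⟨G, ⟨Subset.rfl, by simp [h.emp]⟩, sub i (ev_PP ht), d⟩)
  · rw [disjoint_left]; intro t; simp only [mem_II]
    intro a b; exact hij (Fin.ext (by omega))
  · simp only [mem_insert, mem_singleton, mem_PP, mem_II] at *; omega
  · simp only [card_II]
    have : m < 4 := by omega
    interval_cases m <;> simp [NN]

end low

lemma comp_ne {X C : Finset ℕ} {ρ : Finset ℕ → ℕ} (hX : X.Nonempty) (c : Comp X ρ C) :
    C.Nonempty := by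
  rcases C.eq_empty_or_nonempty with rfl | a
  · obtain ⟨x, hx⟩ := hX
    have := c.2 (y := {x}) ⟨by simpa using hx, by simp⟩ (by simp)
    simp at this
  · exact a

lemma dep_del {ρ : Finset ℕ → ℕ} {k : ℕ} {C U : Finset ℕ} {p : ℕ} (hne : C.Nonempty)
    (hC : C ⊆ insert p U) (h : ∀ X ⊆ U, X.Nonempty → Dep TCsD k X ρ) :
    C.card = 1 ∨ ∃ E' r', TCsD C ρ E' r' ∧ Dep TCsD k E' r' := by
  by_cases h1 : C.card = 1
  · exact Or.inl h1
  have := card_pos.2 hne
  obtain ⟨q, a, b⟩ : ∃ q ∈ C, q = p ∨ p ∉ C := by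
    by_cases d : p ∈ C
    · exact ⟨p, d, Or.inl rfl⟩
    · obtain ⟨q, hq⟩ := hne; exact ⟨q, hq, Or.inr d⟩
  refine Or.inr ⟨_, _, Or.inl ⟨q, a, rfl, rfl⟩,
    h _ (fun x hx => ?_) (card_pos.1 (by rw [card_erase_of_mem a]; omega))⟩
  refine (mem_insert.1 (hC (mem_of_mem_erase hx))).resolve_left ?_
  rintro rfl
  rcases b with rfl | b
  · simp at hx
  · exact b (mem_of_mem_erase hx)

lemma dep_up {ρ : Finset ℕ → ℕ} {k : ℕ} {U : Finset ℕ} (p : ℕ)
    (h : ∀ X ⊆ U, X.Nonempty → Dep TCsD k X ρ) :
    ∀ X ⊆ insert p U, X.Nonempty → Dep TCsD (k + 1) X ρ :=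
  fun _ hX hne _ c => dep_del (comp_ne hne c) (c.1.1.trans hX) h

lemma comp_sep {ρ : Finset ℕ → ℕ} (h : RK ρ) {X C A : Finset ℕ} (c : Comp X ρ C) (s : Sep ρ X A)
    {x : ℕ} (hx : x ∈ C) (hA : x ∈ A) : C ⊆ A := fun y hy => by
  by_cases e : x = y
  · rwa [← e]
  · obtain ⟨K, k1, k2, k3, k4⟩ := c.1.2 x hx y hy e
    exact s.circ h k1 k2 k3 hA k4

lemma con_rN (X : Finset ℕ) : con rN 60002 X = GG X := by
  have : rN {60002} = 1 := by rw [rN, ← insert_empty_eq, GG_ins (by omega), GG_empty]; simp
  rw [con, this, rN, GG_ins (by omega)]; simp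

lemma dep1 {ρ : Finset ℕ → ℕ} (p : ℕ) : ∀ X ⊆ {p}, X.Nonempty → Dep TCsD 1 X ρ := by
  intro X hX hne C c
  have := card_pos.2 (comp_ne hne c)
  have := card_le_card (c.1.1.trans hX)
  left; rw [card_singleton] at this; omega

lemma dep2 (i : ℕ) (hi : i < 3) : ∀ X ⊆ PP ((II i).erase (10000 * i)), X.Nonempty →
    Dep TCsD 2 X (con rN 60002) := by
  intro X hX hne C c
  have h := con_RK rN_RK 60002
  have key : ∀ Y ⊆ X, con rN 60002 Y = (TT Y).card := by
    intro Y hY
    have hY' := hY.trans hX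
    have h1 := nn_sum (hY'.trans (PP_UU fun t ht => by
      have := mem_II.1 (mem_of_mem_erase ht); omega))
    have h2 : ∀ k, nn k Y ≤ 9999 := fun k => (nn_mono k hY').trans (by
      rw [nn_PP]
      refine (card_le_card inter_subset_left).trans ?_
      rw [card_erase_of_mem (mem_II.2 (by omega)), card_II])
    have := h2 0; have := h2 1; have := h2 2
    rw [con_rN]; unfold GG gg; omega
  obtain ⟨x, hx⟩ := comp_ne hne c
  have s : Sep (con rN 60002) X (X ∩ PP {x / 2}) := ⟨inter_subset_left, by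
    rw [key _ inter_subset_left, key _ sdiff_subset, key _ Subset.rfl, ← card_union_of_disjoint]
    · exact card_le_card (union_subset (image_subset_image inter_subset_left)
        (image_subset_image sdiff_subset))
    · rw [disjoint_left]; intro t
      simp only [mem_TT, mem_inter, mem_sdiff, mem_PP, mem_singleton, show 2 * t / 2 = t by omega,
        show (2 * t + 1) / 2 = t by omega]
      tauto⟩
  have := comp_sep h c s hx (mem_inter.2 ⟨c.1.1 hx, by simp [mem_PP]⟩)
  exact dep_del ⟨x, hx⟩ (by rw [← PP_one]; exact this.trans inter_subset_right) (dep1 _)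

lemma dep4 : ∀ X ⊆ UU 60000, X.Nonempty → Dep TCsD 4 X (con rN 60002) := by
  intro X hX hne C c
  have h := con_RK rN_RK 60002
  obtain ⟨x, hx⟩ := comp_ne hne c
  have hx' := mem_UU.1 (hX (c.1.1 hx))
  obtain ⟨i, hi, hxi⟩ : ∃ i, i < 3 ∧ x / 2 / 10000 = i := ⟨_, by omega, rfl⟩
  have s : Sep (con rN 60002) X (X ∩ PP (II i)) := ⟨inter_subset_left, by
    have h1 : ∀ k, k ≠ i → nn k (X ∩ PP (II i)) = 0 := fun k hk => by
      have := nn_mono k (inter_subset_right (s₁ := X) (s₂ := PP (II i)))
      rw [nn_II, if_neg hk.symm] at this; omega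
    have h2 : nn i (X \ (X ∩ PP (II i))) = 0 := by
      rw [nn, card_eq_zero]; ext t
      simp only [mem_TT, mem_inter, mem_sdiff, mem_PP, show 2 * t / 2 = t by omega,
        show (2 * t + 1) / 2 = t by omega, notMem_empty]
      tauto
    have h3 := fun k => nn_mono k (inter_subset_left (s₁ := X) (s₂ := PP (II i)))
    have h4 := fun k => nn_mono k (sdiff_subset (s := X) (t := X ∩ PP (II i)))
    have := h1 0; have := h1 1; have := h1 2; have := h3 0; have := h3 1; have := h3 2
    have := h4 0; have := h4 1; have := h4 2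
    simp only [con_rN]; unfold GG gg
    interval_cases i <;> omega⟩
  have := comp_sep h c s hx (mem_inter.2 ⟨c.1.1 hx, by rwa [mem_PP, mem_II]⟩)
  refine dep_del (p := 20000 * i) ⟨x, hx⟩ (fun z hz => ?_) (dep_up (20000 * i + 1) (dep2 i hi))
  have := (mem_inter.1 (this hz)).2
  simp only [mem_PP, mem_II, mem_insert, mem_erase] at *
  omega

lemma dep5 : ∀ X ⊆ UU 60000, X.Nonempty → Dep TCsD 5 X rM := by
  intro X hX hne C c
  have hC := c.1.1.trans hX
  have hf : 60002 ∉ C := fun a => by simpa [mem_UU] using hC a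
  refine Or.inr ⟨C, con rN 60002, Or.inr ⟨rfl, 60002, hf, rN,
    ⟨rN_RK.emp, rN_RK.mono, rN_RK.sub, rN_RK.one⟩, fun Y hY => ?_, by simp [rN], rfl⟩,
    dep4 C hC (comp_ne hne c)⟩
  rw [rM_r1 (hY.trans hC), r1_eq, erase_eq_of_notMem (fun a => hf (hY a))]

lemma upper : Dep TCsD 7 (UU 60002) rM :=
  dep_up 60001 (dep_up 60000 dep5) _ (fun z hz => by simp only [mem_insert, mem_UU] at *; omega)
    ⟨0, mem_UU.2 (by omega)⟩

end Pool.Agent.H.MP_17585b_co
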